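import Mathlib
import Pool.Agent.H33.G.R_seed8.H376R2.MR.Selw
import Pool.Agent.H33.G.R_seed8.W37.RK.BL1

/-! The variance of Selberg's upper bound function over short intervals. -/

set_option autoImplicit false

namespace Pool.Agent.W301.SS
open Finset

lemma cntN (X L : ℕ) (hL : 0 < L) (v : ℕ) :
    |(((Ioc 0 X).filter (fun x => x ≡ v [MOD L])).card : ℝ) - X / L| ≤ 1 := by
  have h := Nat.Ioc_filter_modEq_card 0 X hL v
  have hL0 : (0 : ℝ) < L := by exact_mod_cast hL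
  set f1 : ℤ := ⌊((X : ℚ) - v) / (L : ℚ)⌋ with hf1
  set f2 : ℤ := ⌊(((0 : ℕ) : ℚ) - v) / (L : ℚ)⌋ with hf2
  have a1 : ((f1 : ℤ) : ℝ) ≤ ((X : ℝ) - v) / L := by
    have : ((f1 : ℤ) : ℚ) ≤ ((X : ℚ) - v) / L := Int.floor_le _
    have h2 : (((f1 : ℤ) : ℚ) : ℝ) ≤ ((((X : ℚ) - v) / L : ℚ) : ℝ) := by exact_mod_cast this
    push_cast at h2; exact h2
  have a2 : ((X : ℝ) - v) / L < ((f1 : ℤ) : ℝ) + 1 := by
    have : ((X : ℚ) - v) / L < ((f1 : ℤ) : ℚ) + 1 := Int.lt_floor_add_one _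
    have h2 : ((((X : ℚ) - v) / L : ℚ) : ℝ) < ((((f1 : ℤ) : ℚ) + 1 : ℚ) : ℝ) := by exact_mod_cast this
    push_cast at h2; exact h2
  have a3 : ((f2 : ℤ) : ℝ) ≤ (0 - (v : ℝ)) / L := by
    have : ((f2 : ℤ) : ℚ) ≤ (((0 : ℕ) : ℚ) - v) / L := Int.floor_le _
    have h2 : (((f2 : ℤ) : ℚ) : ℝ) ≤ (((((0 : ℕ) : ℚ) - v) / L : ℚ) : ℝ) := by exact_mod_cast this
    push_cast at h2; exact h2
  have a4 : (0 - (v : ℝ)) / L < ((f2 : ℤ) : ℝ) + 1 := by
    have : (((0 : ℕ) : ℚ) - v) / L < ((f2 : ℤ) : ℚ) + 1 := Int.lt_floor_add_one _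
    have h2 : (((((0 : ℕ) : ℚ) - v) / L : ℚ) : ℝ) < ((((f2 : ℤ) : ℚ) + 1 : ℚ) : ℝ) := by exact_mod_cast this
    push_cast at h2; exact h2
  have e : ((X : ℝ) - v) / L - (0 - (v : ℝ)) / L = X / L := by ring
  have hcard : (((Ioc 0 X).filter (fun x => x ≡ v [MOD L])).card : ℝ) = max ((f1 : ℝ) - f2) 0 := by
    have : ((((Ioc 0 X).filter (fun x => x ≡ v [MOD L])).card : ℤ) : ℝ) = ((max (f1 - f2) 0 : ℤ) : ℝ) := by
      rw [h]
    push_cast at this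
    exact this
  rw [hcard]
  have hX : 0 ≤ (X : ℝ) / L := by positivity
  rw [abs_le]
  rcases le_total ((f1 : ℝ) - f2) 0 with h0 | h0
  · rw [max_eq_right h0]; constructor <;> linarith
  · rw [max_eq_left h0]; constructor <;> linarith

lemma cntD (X m h : ℕ) (hm : 0 < m) :
    |(((Ioc 0 X).filter (fun n => m ∣ n + h)).card : ℝ) - X / m| ≤ 1 := by
  have h1 := cntN X m hm (h * (m - 1))
  have h2 : (Ioc 0 X).filter (fun n => m ∣ n + h) = (Ioc 0 X).filter (fun x => x ≡ h * (m - 1) [MOD m]) := by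
    apply filter_congr
    intro n _
    rw [Nat.modEq_iff_dvd]
    have hc : ((m - 1 : ℕ) : ℤ) = (m : ℤ) - 1 := by push_cast [Nat.cast_sub hm]; ring
    push_cast [hc]
    constructor
    · intro hd
      have : (m : ℤ) ∣ (n : ℤ) + h := by exact_mod_cast hd
      have e : (h : ℤ) * (m - 1) - n = m * h - (n + h) := by ring
      rw [e]
      exact dvd_sub (dvd_mul_right _ _) this
    · intro hd
      have e : (n : ℤ) + h = m * h - ((h : ℤ) * (m - 1) - n) := by ring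
      have : (m : ℤ) ∣ (n : ℤ) + h := by
        rw [e]; exact dvd_sub (dvd_mul_right _ _) hd
      exact_mod_cast this
  rw [h2]; exact h1

lemma cnt2 (X a b h k : ℕ) (ha : 0 < a) (hb : 0 < b) :
    |(((Ioc 0 X).filter (fun n => a ∣ n + h ∧ b ∣ n + k)).card : ℝ) -
      (if ((Nat.gcd a b : ℕ) : ℤ) ∣ (h : ℤ) - k then (X : ℝ) / Nat.lcm a b else 0)| ≤ 1 := by
  split_ifs with hg
  · have hca : ((a - 1 : ℕ) : ℤ) = (a : ℤ) - 1 := by push_cast [Nat.cast_sub ha]; ring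
    have hcb : ((b - 1 : ℕ) : ℤ) = (b : ℤ) - 1 := by push_cast [Nat.cast_sub hb]; ring
    have hga : ((Nat.gcd a b : ℕ) : ℤ) ∣ (a : ℤ) := by exact_mod_cast Nat.gcd_dvd_left a b
    have hgb : ((Nat.gcd a b : ℕ) : ℤ) ∣ (b : ℤ) := by exact_mod_cast Nat.gcd_dvd_right a b
    have hmod : h * (a - 1) ≡ k * (b - 1) [MOD Nat.gcd a b] := by
      rw [Nat.modEq_iff_dvd]
      push_cast [hca, hcb]
      have e : (k : ℤ) * (b - 1) - h * (a - 1) = ((h : ℤ) - k) + k * b - h * a := by ring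
      rw [e]
      exact dvd_sub (dvd_add hg (Dvd.dvd.mul_left hgb _)) (Dvd.dvd.mul_left hga _)
    obtain ⟨r, hr1, hr2⟩ := Nat.chineseRemainder' hmod
    have h1 := cntN X (Nat.lcm a b) (Nat.lcm_pos ha hb) r
    have h2 : (Ioc 0 X).filter (fun n => a ∣ n + h ∧ b ∣ n + k) =
        (Ioc 0 X).filter (fun x => x ≡ r [MOD Nat.lcm a b]) := by
      apply filter_congr
      intro n _
      rw [Nat.modEq_iff_dvd] at hr1 hr2 ⊢
      push_cast [hca] at hr1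
      push_cast [hcb] at hr2
      have q1 : (a : ℤ) ∣ (r : ℤ) + h := by
        have e : (r : ℤ) + h = h * a - ((h : ℤ) * (a - 1) - r) := by ring
        rw [e]; exact dvd_sub (dvd_mul_left _ _) hr1
      have q2 : (b : ℤ) ∣ (r : ℤ) + k := by
        have e : (r : ℤ) + k = k * b - ((k : ℤ) * (b - 1) - r) := by ring
        rw [e]; exact dvd_sub (dvd_mul_left _ _) hr2
      have hl : ((Nat.lcm a b : ℕ) : ℤ) ∣ (r : ℤ) - n ↔ (a : ℤ) ∣ (r : ℤ) - n ∧ (b : ℤ) ∣ (r : ℤ) - n := by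
        rw [Int.natCast_dvd, Int.natCast_dvd, Int.natCast_dvd, Nat.lcm_dvd_iff]
      rw [hl]
      constructor
      · rintro ⟨d1, d2⟩
        have d1' : (a : ℤ) ∣ (n : ℤ) + h := by exact_mod_cast d1
        have d2' : (b : ℤ) ∣ (n : ℤ) + k := by exact_mod_cast d2
        constructor
        · have e : (r : ℤ) - n = (r + h) - (n + h) := by ring
          rw [e]; exact dvd_sub q1 d1'
        · have e : (r : ℤ) - n = (r + k) - (n + k) := by ring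
          rw [e]; exact dvd_sub q2 d2'
      · rintro ⟨d1, d2⟩
        constructor
        · have e : (n : ℤ) + h = (r + h) - (r - n) := by ring
          have : (a : ℤ) ∣ (n : ℤ) + h := by rw [e]; exact dvd_sub q1 d1
          exact_mod_cast this
        · have e : (n : ℤ) + k = (r + k) - (r - n) := by ring
          have : (b : ℤ) ∣ (n : ℤ) + k := by rw [e]; exact dvd_sub q2 d2
          exact_mod_cast this
    rw [h2]; exact h1
  · have h2 : (Ioc 0 X).filter (fun n => a ∣ n + h ∧ b ∣ n + k) = ∅ := by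
      apply filter_false_of_mem
      rintro n _ ⟨d1, d2⟩
      apply hg
      have e1 : Nat.gcd a b ∣ n + h := (Nat.gcd_dvd_left a b).trans d1
      have e2 : Nat.gcd a b ∣ n + k := (Nat.gcd_dvd_right a b).trans d2
      have e1' : ((Nat.gcd a b : ℕ) : ℤ) ∣ (n : ℤ) + h := by exact_mod_cast e1
      have e2' : ((Nat.gcd a b : ℕ) : ℤ) ∣ (n : ℤ) + k := by exact_mod_cast e2
      have e : (h : ℤ) - k = (n + h) - (n + k) := by ring
      rw [e]; exact dvd_sub e1' e2'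
    rw [h2]; simp

lemma cntH (H g h : ℕ) (hg : 0 < g) :
    |(((Ioc 0 H).filter (fun k : ℕ => (g : ℤ) ∣ (h : ℤ) - k)).card : ℝ) - H / g| ≤ 1 := by
  have h1 := cntN H g hg h
  have h2 : (Ioc 0 H).filter (fun k : ℕ => (g : ℤ) ∣ (h : ℤ) - k) =
      (Ioc 0 H).filter (fun x => x ≡ h [MOD g]) := by
    apply filter_congr
    intro n _
    rw [Nat.modEq_iff_dvd]
  rw [h2]; exact h1

/-- the correlation of two divisibility conditions over short intervals -/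
lemma corr (X H a b : ℕ) (ha : 0 < a) (hb : 0 < b) :
    |(∑ h ∈ Ioc 0 H, ∑ k ∈ Ioc 0 H, (((Ioc 0 X).filter (fun n => a ∣ n + h ∧ b ∣ n + k)).card : ℝ)) -
      (H : ℝ) ^ 2 * X / (a * b)| ≤ (H : ℝ) ^ 2 + X * H / Nat.lcm a b := by
  have hg0 : 0 < Nat.gcd a b := Nat.gcd_pos_of_pos_left _ ha
  have hl0 : 0 < Nat.lcm a b := Nat.lcm_pos ha hb
  have hgr : (0 : ℝ) < Nat.gcd a b := by exact_mod_cast hg0
  have hlr : (0 : ℝ) < Nat.lcm a b := by exact_mod_cast hl0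
  have hgl : (Nat.gcd a b : ℝ) * (Nat.lcm a b : ℝ) = (a : ℝ) * b := by
    exact_mod_cast Nat.gcd_mul_lcm a b
  have h1 : |(∑ h ∈ Ioc 0 H, ∑ k ∈ Ioc 0 H, (((Ioc 0 X).filter (fun n => a ∣ n + h ∧ b ∣ n + k)).card : ℝ)) -
      ∑ h ∈ Ioc 0 H, ∑ k ∈ Ioc 0 H, (if ((Nat.gcd a b : ℕ) : ℤ) ∣ (h : ℤ) - (k : ℕ) then (X : ℝ) / Nat.lcm a b else 0)| ≤
      (H : ℝ) ^ 2 := by
    rw [← sum_sub_distrib]
    refine (abs_sum_le_sum_abs _ _).trans ?_
    have : ∀ h ∈ Ioc 0 H, |(∑ k ∈ Ioc 0 H, (((Ioc 0 X).filter (fun n => a ∣ n + h ∧ b ∣ n + k)).card : ℝ)) -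
      ∑ k ∈ Ioc 0 H, (if ((Nat.gcd a b : ℕ) : ℤ) ∣ (h : ℤ) - (k : ℕ) then (X : ℝ) / Nat.lcm a b else 0)| ≤ H := by
      intro h _
      rw [← sum_sub_distrib]
      refine (abs_sum_le_sum_abs _ _).trans ?_
      refine (sum_le_sum fun k _ => cnt2 X a b h k ha hb).trans ?_
      simp
    refine (sum_le_sum this).trans ?_
    rw [sum_const, nsmul_eq_mul, Nat.card_Ioc, Nat.sub_zero, sq]
  have h2 : |(∑ h ∈ Ioc 0 H, ∑ k ∈ Ioc 0 H, (if ((Nat.gcd a b : ℕ) : ℤ) ∣ (h : ℤ) - (k : ℕ) then (X : ℝ) / Nat.lcm a b else 0)) -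
      (H : ℝ) ^ 2 * X / (a * b)| ≤ X * H / Nat.lcm a b := by
    have e : (H : ℝ) ^ 2 * X / (a * b) = ∑ _h ∈ Ioc 0 H, (H / Nat.gcd a b) * ((X : ℝ) / Nat.lcm a b) := by
      rw [sum_const, nsmul_eq_mul, Nat.card_Ioc, Nat.sub_zero, ← hgl]
      field_simp
    rw [e, ← sum_sub_distrib]
    refine (abs_sum_le_sum_abs _ _).trans ?_
    have : ∀ h ∈ Ioc 0 H, |(∑ k ∈ Ioc 0 H, (if ((Nat.gcd a b : ℕ) : ℤ) ∣ (h : ℤ) - (k : ℕ) then (X : ℝ) / Nat.lcm a b else 0)) -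
        (H / Nat.gcd a b) * ((X : ℝ) / Nat.lcm a b)| ≤ (X : ℝ) / Nat.lcm a b := by
      intro h _
      rw [← sum_filter, sum_const, nsmul_eq_mul, ← sub_mul, abs_mul,
        abs_of_nonneg (show 0 ≤ (X : ℝ) / Nat.lcm a b by positivity)]
      have := cntH H (Nat.gcd a b) h hg0
      calc _ ≤ 1 * ((X : ℝ) / Nat.lcm a b) := mul_le_mul_of_nonneg_right this (by positivity)
        _ = _ := one_mul _
    refine (sum_le_sum this).trans (le_of_eq ?_)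
    rw [sum_const, nsmul_eq_mul, Nat.card_Ioc, Nat.sub_zero]
    ring
  have h3 := abs_sub_le (∑ h ∈ Ioc 0 H, ∑ k ∈ Ioc 0 H, (((Ioc 0 X).filter (fun n => a ∣ n + h ∧ b ∣ n + k)).card : ℝ))
    (∑ h ∈ Ioc 0 H, ∑ k ∈ Ioc 0 H, (if ((Nat.gcd a b : ℕ) : ℤ) ∣ (h : ℤ) - (k : ℕ) then (X : ℝ) / Nat.lcm a b else 0))
    ((H : ℝ) ^ 2 * X / (a * b))
  linarith

/-- pairs of divisors -/
def DD (D : ℕ) : Finset (ℕ × ℕ) := Icc 1 D ×ˢ Icc 1 D

lemma DD_pos {D : ℕ} {x : ℕ × ℕ} (hx : x ∈ DD D) : 0 < Nat.lcm x.1 x.2 := by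
  unfold DD at hx
  rw [mem_product, mem_Icc, mem_Icc] at hx
  exact Nat.lcm_pos (by omega) (by omega)

/-- Selberg's upper bound function -/
noncomputable def nu (l : ℕ → ℝ) (D n : ℕ) : ℝ := (∑ d ∈ Icc 1 D, if d ∣ n then l d else 0) ^ 2

lemma nu_nonneg (l : ℕ → ℝ) (D n : ℕ) : 0 ≤ nu l D n := sq_nonneg _

lemma nu_eq (l : ℕ → ℝ) (D n : ℕ) : nu l D n =
    ∑ x ∈ DD D, l x.1 * l x.2 * (if Nat.lcm x.1 x.2 ∣ n then 1 else 0) := by
  unfold nu DD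
  rw [sq, sum_mul_sum, sum_product]
  apply sum_congr rfl; intro d _
  apply sum_congr rfl; intro e _
  by_cases h1 : d ∣ n <;> by_cases h2 : e ∣ n <;> simp [Nat.lcm_dvd_iff, h1, h2]

/-- the average over a short interval -/
noncomputable def VV (l : ℕ → ℝ) (D H n : ℕ) : ℝ := (∑ h ∈ Ioc 0 H, nu l D (n + h)) / H

/-- the mean value -/
noncomputable def mv (l : ℕ → ℝ) (D : ℕ) : ℝ := ∑ x ∈ DD D, l x.1 * l x.2 / (Nat.lcm x.1 x.2 : ℝ)

/-- the sum of `1 / [d_1, d_2, d_3, d_4]` -/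
noncomputable def QS (D : ℕ) : ℝ := ∑ x ∈ DD D, ∑ z ∈ DD D,
  1 / (Nat.lcm (Nat.lcm x.1 x.2) (Nat.lcm z.1 z.2) : ℝ)

lemma QS_le (D : ℕ) (hD : 1 ≤ D) : QS D ≤ (1 + 4 * Real.log D) ^ 16 := by
  classical
  unfold QS
  rw [← sum_product']
  set f : (ℕ × ℕ) × (ℕ × ℕ) → ℕ := fun q => Nat.lcm (Nat.lcm q.1.1 q.1.2) (Nat.lcm q.2.1 q.2.2) with hf
  have hmaps : ∀ q ∈ DD D ×ˢ DD D, f q ∈ Icc 1 (D ^ 4) := by
    intro q hq
    rw [mem_product] at hq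
    have p1 := DD_pos hq.1
    have p2 := DD_pos hq.2
    unfold DD at hq
    rw [mem_product, mem_product, mem_Icc, mem_Icc, mem_Icc, mem_Icc] at hq
    rw [mem_Icc]
    refine ⟨Nat.lcm_pos p1 p2, ?_⟩
    have l1 : Nat.lcm q.1.1 q.1.2 ≤ D * D :=
      (Nat.le_of_dvd (Nat.mul_pos (by omega) (by omega)) (Nat.lcm_dvd_mul _ _)).trans
        (Nat.mul_le_mul (by omega) (by omega))
    have l2 : Nat.lcm q.2.1 q.2.2 ≤ D * D :=
      (Nat.le_of_dvd (Nat.mul_pos (by omega) (by omega)) (Nat.lcm_dvd_mul _ _)).trans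
        (Nat.mul_le_mul (by omega) (by omega))
    calc f q ≤ Nat.lcm q.1.1 q.1.2 * Nat.lcm q.2.1 q.2.2 :=
          Nat.le_of_dvd (Nat.mul_pos p1 p2) (Nat.lcm_dvd_mul _ _)
      _ ≤ (D * D) * (D * D) := Nat.mul_le_mul l1 l2
      _ = D ^ 4 := by ring
  have h1 : ∑ q ∈ DD D ×ˢ DD D, 1 / (Nat.lcm (Nat.lcm q.1.1 q.1.2) (Nat.lcm q.2.1 q.2.2) : ℝ) =
      ∑ m ∈ Icc 1 (D ^ 4), ∑ q ∈ (DD D ×ˢ DD D).filter (fun q => f q = m), 1 / ((f q : ℕ) : ℝ) := by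
    rw [sum_fiberwise_of_maps_to hmaps]
  rw [h1]
  have h2 : ∀ m ∈ Icc 1 (D ^ 4), ∑ q ∈ (DD D ×ˢ DD D).filter (fun q => f q = m), 1 / ((f q : ℕ) : ℝ) ≤
      (m.divisors.card : ℝ) ^ 4 / m := by
    intro m hm
    rw [mem_Icc] at hm
    have e1 : ∑ q ∈ (DD D ×ˢ DD D).filter (fun q => f q = m), 1 / ((f q : ℕ) : ℝ) =
        (((DD D ×ˢ DD D).filter (fun q => f q = m)).card : ℝ) / m := by
      rw [sum_congr rfl (fun q hq => by rw [(mem_filter.1 hq).2])]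
      rw [sum_const, nsmul_eq_mul]; ring
    rw [e1]
    apply div_le_div_of_nonneg_right _ (Nat.cast_nonneg m)
    have e2 : (DD D ×ˢ DD D).filter (fun q => f q = m) ⊆
        (m.divisors ×ˢ m.divisors) ×ˢ (m.divisors ×ˢ m.divisors) := by
      intro q hq
      rw [mem_filter] at hq
      have hm0 : m ≠ 0 := by omega
      have d1 : Nat.lcm q.1.1 q.1.2 ∣ m := by rw [← hq.2]; exact Nat.dvd_lcm_left _ _
      have d2 : Nat.lcm q.2.1 q.2.2 ∣ m := by rw [← hq.2]; exact Nat.dvd_lcm_right _ _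
      simp only [mem_product, Nat.mem_divisors]
      exact ⟨⟨⟨(Nat.dvd_lcm_left _ _).trans d1, hm0⟩, ⟨(Nat.dvd_lcm_right _ _).trans d1, hm0⟩⟩,
        ⟨⟨(Nat.dvd_lcm_left _ _).trans d2, hm0⟩, ⟨(Nat.dvd_lcm_right _ _).trans d2, hm0⟩⟩⟩
    have e3 := card_le_card e2
    rw [card_product, card_product] at e3
    calc (((DD D ×ˢ DD D).filter (fun q => f q = m)).card : ℝ) ≤
          ((m.divisors.card * m.divisors.card * (m.divisors.card * m.divisors.card) : ℕ) : ℝ) := by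
            exact_mod_cast e3
      _ = _ := by push_cast; ring
  refine (sum_le_sum h2).trans ?_
  have h3 := W37.RK.sum_card_pow_div 4 (D ^ 4)
  refine h3.trans (le_of_eq ?_)
  push_cast
  rw [Real.log_pow]
  norm_num

/-- **The variance of Selberg's function over short intervals.** -/
theorem variance (l : ℕ → ℝ) (hl : ∀ d, |l d| ≤ 1) (D : ℕ) (hD : 1 ≤ D) (hm0 : 0 ≤ mv l D)
    (hm1 : mv l D ≤ 1) (X H : ℕ) (hH : 1 ≤ H) :
    ∑ n ∈ Ioc 0 X, (VV l D H n - mv l D) ^ 2 ≤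
      3 * (D : ℝ) ^ 4 + X / H * (1 + 4 * Real.log D) ^ 16 := by
  have hH0 : (0 : ℝ) < H := by exact_mod_cast hH
  have hD1 : (1 : ℝ) ≤ D := by exact_mod_cast hD
  set c := mv l D with hc
  have hll : ∀ x : ℕ × ℕ, |l x.1 * l x.2| ≤ 1 := by
    intro x
    rw [abs_mul]
    exact mul_le_one₀ (hl _) (abs_nonneg _) (hl _)
  -- first moment
  have S1 : |(H : ℝ) * (∑ n ∈ Ioc 0 X, VV l D H n) - H * X * c| ≤ H * (D : ℝ) ^ 2 := by
    have e1 : (H : ℝ) * (∑ n ∈ Ioc 0 X, VV l D H n) = ∑ x ∈ DD D, l x.1 * l x.2 *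
        ∑ h ∈ Ioc 0 H, (((Ioc 0 X).filter (fun n => Nat.lcm x.1 x.2 ∣ n + h)).card : ℝ) := by
      calc (H : ℝ) * (∑ n ∈ Ioc 0 X, VV l D H n) = ∑ n ∈ Ioc 0 X, ∑ h ∈ Ioc 0 H, nu l D (n + h) := by
            rw [mul_sum]
            apply sum_congr rfl; intro n _
            unfold VV; field_simp
        _ = ∑ n ∈ Ioc 0 X, ∑ h ∈ Ioc 0 H, ∑ x ∈ DD D, l x.1 * l x.2 *
              (if Nat.lcm x.1 x.2 ∣ n + h then 1 else 0) := by
            apply sum_congr rfl; intro n _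
            apply sum_congr rfl; intro h _
            exact nu_eq l D (n + h)
        _ = ∑ x ∈ DD D, ∑ h ∈ Ioc 0 H, ∑ n ∈ Ioc 0 X, l x.1 * l x.2 *
              (if Nat.lcm x.1 x.2 ∣ n + h then 1 else 0) := by
            rw [sum_comm]
            rw [sum_congr rfl (fun h _ => sum_comm)]
            rw [sum_comm]
        _ = _ := by
            apply sum_congr rfl; intro x _
            rw [mul_sum]
            apply sum_congr rfl; intro h _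
            rw [← mul_sum, card_filter]
            push_cast
            rfl
    have e2 : (H : ℝ) * X * c = ∑ x ∈ DD D, l x.1 * l x.2 * (H * (X / (Nat.lcm x.1 x.2 : ℝ))) := by
      rw [hc]; unfold mv
      rw [mul_sum]
      apply sum_congr rfl; intro x _
      ring
    rw [e1, e2, ← sum_sub_distrib]
    refine (abs_sum_le_sum_abs _ _).trans ?_
    have : ∀ x ∈ DD D, |l x.1 * l x.2 * (∑ h ∈ Ioc 0 H,
        (((Ioc 0 X).filter (fun n => Nat.lcm x.1 x.2 ∣ n + h)).card : ℝ)) -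
        l x.1 * l x.2 * (H * (X / (Nat.lcm x.1 x.2 : ℝ)))| ≤ H := by
      intro x hx
      rw [← mul_sub, abs_mul]
      have h2 : |(∑ h ∈ Ioc 0 H, (((Ioc 0 X).filter (fun n => Nat.lcm x.1 x.2 ∣ n + h)).card : ℝ)) -
          (H * (X / (Nat.lcm x.1 x.2 : ℝ)))| ≤ H := by
        have e3 : (H * (X / (Nat.lcm x.1 x.2 : ℝ))) = ∑ _h ∈ Ioc 0 H, (X / (Nat.lcm x.1 x.2 : ℝ)) := by
          rw [sum_const, nsmul_eq_mul, Nat.card_Ioc, Nat.sub_zero]
        rw [e3, ← sum_sub_distrib]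
        refine (abs_sum_le_sum_abs _ _).trans ?_
        refine (sum_le_sum fun h _ => cntD X _ h (DD_pos hx)).trans ?_
        simp
      calc _ ≤ 1 * (H : ℝ) := mul_le_mul (hll x) h2 (abs_nonneg _) (by norm_num)
        _ = _ := one_mul _
    refine (sum_le_sum this).trans (le_of_eq ?_)
    rw [sum_const, nsmul_eq_mul]
    unfold DD
    rw [card_product, Nat.card_Icc]
    push_cast; ring
  -- second moment
  have S2 : |(H : ℝ) ^ 2 * (∑ n ∈ Ioc 0 X, VV l D H n ^ 2) - (H : ℝ) ^ 2 * X * c ^ 2| ≤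
      (H : ℝ) ^ 2 * (D : ℝ) ^ 4 + X * H * QS D := by
    have e1 : (H : ℝ) ^ 2 * (∑ n ∈ Ioc 0 X, VV l D H n ^ 2) = ∑ x ∈ DD D, ∑ z ∈ DD D,
        (l x.1 * l x.2) * (l z.1 * l z.2) * ∑ h ∈ Ioc 0 H, ∑ k ∈ Ioc 0 H,
        (((Ioc 0 X).filter (fun n => Nat.lcm x.1 x.2 ∣ n + h ∧ Nat.lcm z.1 z.2 ∣ n + k)).card : ℝ) := by
      have f1 : ∀ n ∈ Ioc 0 X, (H : ℝ) ^ 2 * VV l D H n ^ 2 =
          ∑ h ∈ Ioc 0 H, ∑ k ∈ Ioc 0 H, ∑ x ∈ DD D, ∑ z ∈ DD D, (l x.1 * l x.2) * (l z.1 * l z.2) *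
            (if Nat.lcm x.1 x.2 ∣ n + h ∧ Nat.lcm z.1 z.2 ∣ n + k then 1 else 0) := by
        intro n _
        have g1 : (H : ℝ) ^ 2 * VV l D H n ^ 2 = (∑ h ∈ Ioc 0 H, nu l D (n + h)) ^ 2 := by
          unfold VV; field_simp
        rw [g1, sq, sum_mul_sum]
        apply sum_congr rfl; intro h _
        apply sum_congr rfl; intro k _
        rw [nu_eq, nu_eq, sum_mul_sum]
        apply sum_congr rfl; intro x _
        apply sum_congr rfl; intro z _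
        by_cases h1 : Nat.lcm x.1 x.2 ∣ n + h <;> by_cases h2 : Nat.lcm z.1 z.2 ∣ n + k <;>
          simp [h1, h2]
      rw [mul_sum, sum_congr rfl f1]
      calc _ = ∑ h ∈ Ioc 0 H, ∑ n ∈ Ioc 0 X, ∑ k ∈ Ioc 0 H, ∑ x ∈ DD D, ∑ z ∈ DD D,
            (l x.1 * l x.2) * (l z.1 * l z.2) *
            (if Nat.lcm x.1 x.2 ∣ n + h ∧ Nat.lcm z.1 z.2 ∣ n + k then (1 : ℝ) else 0) := sum_comm
        _ = ∑ h ∈ Ioc 0 H, ∑ k ∈ Ioc 0 H, ∑ n ∈ Ioc 0 X, ∑ x ∈ DD D, ∑ z ∈ DD D,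
            (l x.1 * l x.2) * (l z.1 * l z.2) *
            (if Nat.lcm x.1 x.2 ∣ n + h ∧ Nat.lcm z.1 z.2 ∣ n + k then (1 : ℝ) else 0) :=
            sum_congr rfl fun h _ => sum_comm
        _ = ∑ h ∈ Ioc 0 H, ∑ k ∈ Ioc 0 H, ∑ x ∈ DD D, ∑ z ∈ DD D,
            (l x.1 * l x.2) * (l z.1 * l z.2) *
            (((Ioc 0 X).filter (fun n => Nat.lcm x.1 x.2 ∣ n + h ∧ Nat.lcm z.1 z.2 ∣ n + k)).card : ℝ) := by
            apply sum_congr rfl; intro h _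
            apply sum_congr rfl; intro k _
            rw [sum_comm]
            apply sum_congr rfl; intro x _
            rw [sum_comm]
            apply sum_congr rfl; intro z _
            rw [← mul_sum, card_filter]
            push_cast
            rfl
        _ = ∑ h ∈ Ioc 0 H, ∑ x ∈ DD D, ∑ k ∈ Ioc 0 H, ∑ z ∈ DD D,
            (l x.1 * l x.2) * (l z.1 * l z.2) *
            (((Ioc 0 X).filter (fun n => Nat.lcm x.1 x.2 ∣ n + h ∧ Nat.lcm z.1 z.2 ∣ n + k)).card : ℝ) :=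
            sum_congr rfl fun h _ => sum_comm
        _ = ∑ x ∈ DD D, ∑ h ∈ Ioc 0 H, ∑ k ∈ Ioc 0 H, ∑ z ∈ DD D,
            (l x.1 * l x.2) * (l z.1 * l z.2) *
            (((Ioc 0 X).filter (fun n => Nat.lcm x.1 x.2 ∣ n + h ∧ Nat.lcm z.1 z.2 ∣ n + k)).card : ℝ) :=
            sum_comm
        _ = ∑ x ∈ DD D, ∑ h ∈ Ioc 0 H, ∑ z ∈ DD D, ∑ k ∈ Ioc 0 H,
            (l x.1 * l x.2) * (l z.1 * l z.2) *
            (((Ioc 0 X).filter (fun n => Nat.lcm x.1 x.2 ∣ n + h ∧ Nat.lcm z.1 z.2 ∣ n + k)).card : ℝ) :=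
            sum_congr rfl fun x _ => sum_congr rfl fun h _ => sum_comm
        _ = ∑ x ∈ DD D, ∑ z ∈ DD D, ∑ h ∈ Ioc 0 H, ∑ k ∈ Ioc 0 H,
            (l x.1 * l x.2) * (l z.1 * l z.2) *
            (((Ioc 0 X).filter (fun n => Nat.lcm x.1 x.2 ∣ n + h ∧ Nat.lcm z.1 z.2 ∣ n + k)).card : ℝ) :=
            sum_congr rfl fun x _ => sum_comm
        _ = _ := by
            apply sum_congr rfl; intro x _
            apply sum_congr rfl; intro z _
            rw [mul_sum]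
            apply sum_congr rfl; intro h _
            rw [mul_sum]
    have e2 : (H : ℝ) ^ 2 * X * c ^ 2 = ∑ x ∈ DD D, ∑ z ∈ DD D,
        (l x.1 * l x.2) * (l z.1 * l z.2) *
          ((H : ℝ) ^ 2 * X / ((Nat.lcm x.1 x.2 : ℝ) * (Nat.lcm z.1 z.2 : ℝ))) := by
      rw [hc]; unfold mv
      rw [sq (∑ x ∈ DD D, l x.1 * l x.2 / (Nat.lcm x.1 x.2 : ℝ)), sum_mul_sum, mul_sum]
      apply sum_congr rfl; intro x hx
      rw [mul_sum]
      apply sum_congr rfl; intro z hz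
      have p1 : ((Nat.lcm x.1 x.2 : ℕ) : ℝ) ≠ 0 := by exact_mod_cast (DD_pos hx).ne'
      have p2 : ((Nat.lcm z.1 z.2 : ℕ) : ℝ) ≠ 0 := by exact_mod_cast (DD_pos hz).ne'
      field_simp
    rw [e1, e2, ← sum_sub_distrib]
    refine (abs_sum_le_sum_abs _ _).trans ?_
    have e3 : ∀ x ∈ DD D, |(∑ z ∈ DD D, (l x.1 * l x.2) * (l z.1 * l z.2) *
        ∑ h ∈ Ioc 0 H, ∑ k ∈ Ioc 0 H,
        (((Ioc 0 X).filter (fun n => Nat.lcm x.1 x.2 ∣ n + h ∧ Nat.lcm z.1 z.2 ∣ n + k)).card : ℝ)) -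
        ∑ z ∈ DD D, (l x.1 * l x.2) * (l z.1 * l z.2) *
          ((H : ℝ) ^ 2 * X / ((Nat.lcm x.1 x.2 : ℝ) * (Nat.lcm z.1 z.2 : ℝ)))| ≤
        ∑ z ∈ DD D, ((H : ℝ) ^ 2 + X * H / (Nat.lcm (Nat.lcm x.1 x.2) (Nat.lcm z.1 z.2) : ℝ)) := by
      intro x hx
      rw [← sum_sub_distrib]
      refine (abs_sum_le_sum_abs _ _).trans (sum_le_sum fun z hz => ?_)
      rw [← mul_sub, abs_mul]
      have h1 := corr X H (Nat.lcm x.1 x.2) (Nat.lcm z.1 z.2) (DD_pos hx) (DD_pos hz)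
      have h2 : |(l x.1 * l x.2) * (l z.1 * l z.2)| ≤ 1 := by
        rw [abs_mul]
        exact mul_le_one₀ (hll x) (abs_nonneg _) (hll z)
      calc _ ≤ 1 * ((H : ℝ) ^ 2 + X * H / (Nat.lcm (Nat.lcm x.1 x.2) (Nat.lcm z.1 z.2) : ℝ)) :=
            mul_le_mul h2 h1 (abs_nonneg _) (by norm_num)
        _ = _ := one_mul _
    refine (sum_le_sum e3).trans (le_of_eq ?_)
    simp_rw [sum_add_distrib]
    unfold QS
    rw [mul_sum]
    congr 1
    · simp_rw [sum_const, nsmul_eq_mul]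
      unfold DD
      rw [card_product, Nat.card_Icc]
      push_cast; ring
    · apply sum_congr rfl; intro x _
      rw [mul_sum]
      apply sum_congr rfl; intro z _
      ring
  -- conclusion
  set s1 := ∑ n ∈ Ioc 0 X, VV l D H n with hs1
  set s2 := ∑ n ∈ Ioc 0 X, VV l D H n ^ 2 with hs2
  have e : ∑ n ∈ Ioc 0 X, (VV l D H n - c) ^ 2 = s2 - 2 * c * s1 + X * c ^ 2 := by
    have : ∀ n ∈ Ioc 0 X, (VV l D H n - c) ^ 2 = VV l D H n ^ 2 - 2 * c * VV l D H n + c ^ 2 := by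
      intro n _; ring
    rw [sum_congr rfl this, sum_add_distrib, sum_sub_distrib, ← mul_sum, sum_const, nsmul_eq_mul,
      Nat.card_Ioc, Nat.sub_zero]
  rw [e]
  have T1 : |s1 - X * c| ≤ (D : ℝ) ^ 2 := by
    have h1 : |(H : ℝ) * s1 - H * X * c| = H * |s1 - X * c| := by
      rw [← abs_of_pos hH0, ← abs_mul, abs_of_pos hH0]; congr 1; ring
    rw [h1] at S1
    exact le_of_mul_le_mul_left S1 hH0
  have T2 : |s2 - X * c ^ 2| ≤ (D : ℝ) ^ 4 + X / H * QS D := by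
    have hH2 : (0 : ℝ) < (H : ℝ) ^ 2 := by positivity
    have h1 : |(H : ℝ) ^ 2 * s2 - (H : ℝ) ^ 2 * X * c ^ 2| = (H : ℝ) ^ 2 * |s2 - X * c ^ 2| := by
      rw [← abs_of_pos hH2, ← abs_mul, abs_of_pos hH2]; congr 1; ring
    rw [h1] at S2
    have h2 : (H : ℝ) ^ 2 * |s2 - X * c ^ 2| ≤ (H : ℝ) ^ 2 * ((D : ℝ) ^ 4 + X / H * QS D) := by
      refine S2.trans (le_of_eq ?_)
      field_simp
    exact le_of_mul_le_mul_left h2 hH2
  have hQ := QS_le D hD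
  have hXH : 0 ≤ (X : ℝ) / H := by positivity
  have hQ2 := mul_le_mul_of_nonneg_left hQ hXH
  have hD24 : (D : ℝ) ^ 2 ≤ (D : ℝ) ^ 4 := pow_le_pow_right₀ hD1 (by norm_num)
  have t1 := (abs_le.1 T1).1
  have t2 := (abs_le.1 T2).2
  have t3 : 2 * c * (X * c - s1) ≤ 2 * (D : ℝ) ^ 2 := by
    have : X * c - s1 ≤ (D : ℝ) ^ 2 := by linarith
    have hD20 : 0 ≤ (D : ℝ) ^ 2 := by positivity
    calc 2 * c * (X * c - s1) ≤ 2 * c * (D : ℝ) ^ 2 := mul_le_mul_of_nonneg_left this (by linarith)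
      _ ≤ 2 * 1 * (D : ℝ) ^ 2 := by gcongr
      _ = _ := by ring
  nlinarith

end Pool.Agent.W301.SS
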