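import Mathlib
import Pool.Agent.H33.G.R_seed8.W301.SS.Vino

/-! Primes in short intervals to the right of the elements of a sumset: the bilinear estimate. -/

set_option autoImplicit false

namespace Pool.Agent.W301.SS
open Finset
open Pool.Agent.H807R2.Dav

/-- `log p` at primes -/
noncomputable def om (n : ℕ) : ℝ := if n.Prime then Real.log n else 0

lemma om_nonneg (n : ℕ) : 0 ≤ om n := by
  unfold om
  split_ifs
  · exact Real.log_natCast_nonneg n
  · exact le_rfl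

lemma om_le (n : ℕ) : om n ≤ ArithmeticFunction.vonMangoldt n := by
  unfold om
  split_ifs with h
  · rw [ArithmeticFunction.vonMangoldt_apply_prime h]
  · exact ArithmeticFunction.vonMangoldt_nonneg

/-- the exponential sum over primes -/
noncomputable def SP (N : ℕ) (α : ℝ) : ℂ := ∑ n ∈ Icc 1 N, ((om n : ℝ) : ℂ) * ee ((n : ℝ) * α)

lemma sum_om (N : ℕ) : ∑ n ∈ Icc 1 N, om n = Chebyshev.theta N := by
  rw [Chebyshev.theta_eq_sum_Icc, Nat.floor_natCast, sum_filter]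
  have : Icc 0 N = insert 0 (Icc 1 N) := by
    ext i; simp only [mem_insert, mem_Icc]; omega
  rw [this, sum_insert (by simp)]
  simp [om, Nat.not_prime_zero]

lemma sum_Lam (N : ℕ) : ∑ n ∈ Icc 1 N, ArithmeticFunction.vonMangoldt n = Chebyshev.psi N := by
  rw [Chebyshev.psi_eq_sum_Icc, Nat.floor_natCast]
  have : Icc 0 N = insert 0 (Icc 1 N) := by
    ext i; simp only [mem_insert, mem_Icc]; omega
  rw [this, sum_insert (by simp)]
  simp

lemma log4 : Real.log 4 ≤ 2 := by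
  have h1 : Real.log 4 = 2 * Real.log 2 := by
    rw [show (4 : ℝ) = 2 ^ 2 by norm_num, Real.log_pow]; push_cast; ring
  have := Real.log_two_lt_d9
  linarith

lemma SP_le (N : ℕ) (α : ℝ) : ‖SP N α‖ ≤ 2 * N := by
  unfold SP
  refine (norm_sum_le _ _).trans ?_
  have : ∑ n ∈ Icc 1 N, ‖((om n : ℝ) : ℂ) * ee ((n : ℝ) * α)‖ = ∑ n ∈ Icc 1 N, om n := by
    apply sum_congr rfl
    intro i _
    rw [norm_mul, norm_ee, mul_one, Complex.norm_real, Real.norm_eq_abs, abs_of_nonneg (om_nonneg i)]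
  rw [this, sum_om]
  have h := Chebyshev.theta_le_log4_mul_x (x := N) (Nat.cast_nonneg N)
  refine h.trans ?_
  exact mul_le_mul_of_nonneg_right log4 (Nat.cast_nonneg N)

lemma SP_sub (N : ℕ) (hN : 1 ≤ N) (α : ℝ) : ‖SL N α - SP N α‖ ≤ 2 * √(N : ℝ) * Real.log N := by
  unfold SL SP
  rw [← sum_sub_distrib]
  refine (norm_sum_le _ _).trans ?_
  have : ∑ n ∈ Icc 1 N, ‖((ArithmeticFunction.vonMangoldt n : ℝ) : ℂ) * ee ((n : ℝ) * α) -
      ((om n : ℝ) : ℂ) * ee ((n : ℝ) * α)‖ =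
      ∑ n ∈ Icc 1 N, (ArithmeticFunction.vonMangoldt n - om n) := by
    apply sum_congr rfl
    intro i _
    rw [← sub_mul, norm_mul, norm_ee, mul_one, ← Complex.ofReal_sub, Complex.norm_real,
      Real.norm_eq_abs, abs_of_nonneg (sub_nonneg.2 (om_le i))]
  rw [this, sum_sub_distrib, sum_om, sum_Lam]
  exact Chebyshev.psi_sub_theta_le (by exact_mod_cast hN)

theorem vinoP : ∃ C : ℝ, 0 < C ∧ ∀ N q : ℕ, 1 ≤ N → 1 ≤ q → ∀ c : ℤ, IsCoprime c (q : ℤ) →
    ∀ α : ℝ, |α - c / q| ≤ 1 / (q : ℝ) ^ 2 →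
    ‖SP N α‖ ≤ C * (1 + Real.log N) ^ 7 * VB N q := by
  obtain ⟨C, hC, h⟩ := vino
  refine ⟨C + 2, by linarith, fun N q hN hq c hcop α hα => ?_⟩
  have h1 := h N q hN hq c hcop α hα
  have h2 := SP_sub N hN α
  have hN1 : (1 : ℝ) ≤ N := by exact_mod_cast hN
  have hq1 : (1 : ℝ) ≤ q := by exact_mod_cast hq
  have hlogN : 0 ≤ Real.log N := Real.log_nonneg hN1
  have h3 : √(N : ℝ) ≤ VB N q := by
    unfold VB
    have a1 : √(N : ℝ) ≤ √(N * q) := Real.sqrt_le_sqrt (by nlinarith)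
    have a2 : 0 ≤ (N : ℝ) / √q := by positivity
    have a3 : 0 ≤ (N : ℝ) ^ (4 / 5 : ℝ) := by positivity
    linarith
  have hV0 : 0 ≤ VB N q := by unfold VB; positivity
  have h4 : Real.log N ≤ (1 + Real.log N) ^ 7 := by
    calc Real.log N ≤ (1 + Real.log N) ^ 1 := by linarith
      _ ≤ _ := pow_le_pow_right₀ (by linarith) (by norm_num)
  have h5 : 2 * √(N : ℝ) * Real.log N ≤ 2 * VB N q * (1 + Real.log N) ^ 7 := by
    gcongr
  calc ‖SP N α‖ = ‖SL N α - (SL N α - SP N α)‖ := by rw [sub_sub_cancel]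
    _ ≤ ‖SL N α‖ + ‖SL N α - SP N α‖ := norm_sub_le _ _
    _ ≤ C * (1 + Real.log N) ^ 7 * VB N q + 2 * VB N q * (1 + Real.log N) ^ 7 := by linarith
    _ = _ := by ring

/-! ### Fourier analysis modulo `M` -/

lemma ee_ne_one {M : ℕ} (hM : 1 ≤ M) {k : ℤ} (hk : ¬ (M : ℤ) ∣ k) : ee ((k : ℝ) / M) ≠ 1 := by
  have hM0 : (M : ℝ) ≠ 0 := by positivity
  intro h
  unfold ee at h
  rw [Complex.exp_eq_one_iff] at h
  obtain ⟨n, hn⟩ := h
  have h2 : (2 * (Real.pi : ℂ) * Complex.I) ≠ 0 := by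
    simp [Real.pi_ne_zero]
  have h3 : (((k : ℝ) / M : ℝ) : ℂ) = n := by
    apply mul_left_cancel₀ h2
    rw [hn]; ring
  have h4 : (k : ℝ) / M = n := by exact_mod_cast h3
  rw [div_eq_iff hM0] at h4
  apply hk
  refine ⟨n, ?_⟩
  have : (k : ℝ) = ((M * n : ℤ) : ℝ) := by push_cast; linarith
  exact_mod_cast this

lemma orth {M : ℕ} (hM : 1 ≤ M) (k : ℤ) :
    ∑ r ∈ range M, ee ((k : ℝ) * ((r : ℝ) / M)) = if (M : ℤ) ∣ k then (M : ℂ) else 0 := by
  have hM0 : (M : ℝ) ≠ 0 := by positivity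
  have e : ∀ r : ℕ, ee ((k : ℝ) * ((r : ℝ) / M)) = ee ((k : ℝ) / M) ^ r := by
    intro r
    rw [← ee_pow]; congr 1; ring
  simp_rw [e]
  split_ifs with h
  · obtain ⟨n, rfl⟩ := h
    have : ee (((M * n : ℤ) : ℝ) / M) = 1 := by
      have e2 : (((M * n : ℤ) : ℝ) / M) = (n : ℝ) := by push_cast; field_simp
      rw [e2, ee_int]
    rw [this]; simp
  · rw [geom_sum_eq (ee_ne_one hM h)]
    have : ee ((k : ℝ) / M) ^ M = 1 := by
      rw [← ee_pow]
      have e2 : (M : ℝ) * ((k : ℝ) / M) = (k : ℝ) := by field_simp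
      rw [e2, ee_int]
    rw [this, sub_self, zero_div]

/-- the transform of a set -/
noncomputable def FA (A : Finset ℕ) (x : ℝ) : ℂ := ∑ a ∈ A, ee ((a : ℝ) * x)

lemma star_ee (x : ℝ) : (starRingEnd ℂ) (ee x) = ee (-x) := by
  rw [ee_eq, ee_eq, ← Complex.exp_conj]
  congr 1
  rw [map_mul, Complex.conj_ofReal, Complex.conj_I]
  push_cast; ring

lemma parseval {M : ℕ} (hM : 1 ≤ M) (A : Finset ℕ) (hA : ∀ a ∈ A, a < M) :
    ∑ r ∈ range M, ‖FA A ((r : ℝ) / M)‖ ^ 2 = M * (A.card : ℝ) := by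
  have key : ((∑ r ∈ range M, ‖FA A ((r : ℝ) / M)‖ ^ 2 : ℝ) : ℂ) = ((M * (A.card : ℝ) : ℝ) : ℂ) := by
    push_cast
    have e1 : ∀ r ∈ range M, ((‖FA A ((r : ℝ) / M)‖ : ℂ)) ^ 2 =
        ∑ a ∈ A, ∑ b ∈ A, ee (((a : ℤ) - (b : ℤ) : ℤ) * ((r : ℝ) / M)) := by
      intro r _
      rw [← Complex.mul_conj']
      unfold FA
      rw [map_sum, sum_mul_sum]
      apply sum_congr rfl
      intro a _
      apply sum_congr rfl
      intro b _
      rw [star_ee, ← ee_add]
      congr 1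
      push_cast; ring
    rw [sum_congr rfl e1, sum_comm]
    have e2 : ∀ a ∈ A, ∑ r ∈ range M, ∑ b ∈ A, ee (((a : ℤ) - (b : ℤ) : ℤ) * ((r : ℝ) / M)) =
        (M : ℂ) := by
      intro a ha
      rw [sum_comm]
      rw [sum_eq_single a]
      · rw [orth hM]
        simp
      · intro b hb hba
        rw [orth hM, if_neg]
        intro h
        have h1 := hA a ha
        have h2 := hA b hb
        have h3 := Int.eq_zero_of_abs_lt_dvd h (by rw [abs_lt]; constructor <;> omega)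
        apply hba; omega
      · intro h; exact absurd ha h
    rw [sum_congr rfl e2, sum_const, nsmul_eq_mul]
    ring
  exact_mod_cast key

/-- sum of `log p` over the pairs and the primes in the interval of length `H` -/
noncomputable def TT (A B : Finset ℕ) (H : ℕ) : ℝ := ∑ a ∈ A, ∑ b ∈ B, ∑ h ∈ Ioc 0 H, om (a + b + h)

/-- the kernel -/
noncomputable def FK (H : ℕ) (x : ℝ) : ℂ := ∑ h ∈ Ioc 0 H, ee ((h : ℝ) * x)

lemma inversion {N M : ℕ} (hNM : N < M) (m : ℕ) (hm : 1 ≤ m) (hmN : m ≤ N) :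
    ∑ r ∈ range M, SP N (-((r : ℝ) / M)) * ee ((m : ℝ) * ((r : ℝ) / M)) = M * ((om m : ℝ) : ℂ) := by
  have hM : 1 ≤ M := by omega
  have e1 : ∀ r ∈ range M, SP N (-((r : ℝ) / M)) * ee ((m : ℝ) * ((r : ℝ) / M)) =
      ∑ n ∈ Icc 1 N, ((om n : ℝ) : ℂ) * ee (((m : ℤ) - (n : ℤ) : ℤ) * ((r : ℝ) / M)) := by
    intro r _
    unfold SP
    rw [sum_mul]
    apply sum_congr rfl
    intro n _
    rw [mul_assoc, ← ee_add]
    congr 2
    push_cast; ring
  rw [sum_congr rfl e1, sum_comm, sum_eq_single m]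
  · rw [← mul_sum, orth hM]
    simp [mul_comm]
  · intro n hn hnm
    rw [mem_Icc] at hn
    rw [← mul_sum, orth hM, if_neg, mul_zero]
    intro h
    have h3 := Int.eq_zero_of_abs_lt_dvd h (by rw [abs_lt]; constructor <;> omega)
    apply hnm; omega
  · intro h
    exact absurd (mem_Icc.2 ⟨hm, hmN⟩) h

lemma TT_fourier {N M : ℕ} (hNM : N < M) (A B : Finset ℕ) (H : ℕ)
    (hN : ∀ a ∈ A, ∀ b ∈ B, a + b + H ≤ N) :
    (M : ℂ) * ((TT A B H : ℝ) : ℂ) = ∑ r ∈ range M, SP N (-((r : ℝ) / M)) *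
      (FA A ((r : ℝ) / M) * FA B ((r : ℝ) / M) * FK H ((r : ℝ) / M)) := by
  have e1 : ∀ r ∈ range M, SP N (-((r : ℝ) / M)) *
      (FA A ((r : ℝ) / M) * FA B ((r : ℝ) / M) * FK H ((r : ℝ) / M)) =
      ∑ a ∈ A, ∑ b ∈ B, ∑ h ∈ Ioc 0 H, SP N (-((r : ℝ) / M)) *
        ee (((a + b + h : ℕ) : ℝ) * ((r : ℝ) / M)) := by
    intro r _
    unfold FA FK
    rw [sum_mul_sum, sum_mul, mul_sum]
    apply sum_congr rfl
    intro a _
    rw [sum_mul, mul_sum]
    apply sum_congr rfl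
    intro b _
    rw [mul_sum, mul_sum]
    apply sum_congr rfl
    intro h _
    rw [← ee_add, ← ee_add]
    congr 2
    push_cast; ring
  rw [sum_congr rfl e1, sum_comm]
  unfold TT
  push_cast
  rw [mul_sum]
  apply sum_congr rfl
  intro a ha
  conv_rhs => rw [sum_comm]
  rw [mul_sum]
  apply sum_congr rfl
  intro b hb
  conv_rhs => rw [sum_comm]
  rw [mul_sum]
  apply sum_congr rfl
  intro h hh
  rw [mem_Ioc] at hh
  have := hN a ha b hb
  have h2 := inversion hNM (a + b + h) (by omega) (by omega)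
  rw [← h2]
  apply sum_congr rfl
  intro r _
  push_cast
  rfl

lemma TT_diff {N M : ℕ} (hNM : N < M) (A B : Finset ℕ) (hAM : ∀ a ∈ A, a < M) (hBM : ∀ b ∈ B, b < M)
    (H H1 : ℕ) (hH : H ≤ H1) (hN : ∀ a ∈ A, ∀ b ∈ B, a + b + H1 ≤ N) (W : ℝ) (hW : 0 ≤ W)
    (hr : ∀ r ∈ range M, ‖SP N (-((r : ℝ) / M))‖ *
      ‖FK H ((r : ℝ) / M) / H - FK H1 ((r : ℝ) / M) / H1‖ ≤ W) :
    |TT A B H / H - TT A B H1 / H1| ≤ √((A.card : ℝ) * B.card) * W := by
  have hM : 1 ≤ M := by omega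
  have hM0 : (0 : ℝ) < M := by exact_mod_cast hM
  have h1 := TT_fourier hNM A B H (fun a ha b hb => by have := hN a ha b hb; omega)
  have h2 := TT_fourier hNM A B H1 hN
  have h3 : (M : ℂ) * (((TT A B H / H - TT A B H1 / H1 : ℝ)) : ℂ) =
      ∑ r ∈ range M, SP N (-((r : ℝ) / M)) * (FA A ((r : ℝ) / M) * FA B ((r : ℝ) / M) *
        (FK H ((r : ℝ) / M) / H - FK H1 ((r : ℝ) / M) / H1)) := by
    push_cast
    rw [mul_sub, ← mul_div_assoc, ← mul_div_assoc, h1, h2, sum_div, sum_div, ← sum_sub_distrib]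
    apply sum_congr rfl
    intro r _
    ring
  have h4 : (M : ℝ) * |TT A B H / H - TT A B H1 / H1| ≤
      ∑ r ∈ range M, W * (‖FA A ((r : ℝ) / M)‖ * ‖FA B ((r : ℝ) / M)‖) := by
    have h5 : (M : ℝ) * |TT A B H / H - TT A B H1 / H1| =
        ‖(M : ℂ) * (((TT A B H / H - TT A B H1 / H1 : ℝ)) : ℂ)‖ := by
      rw [norm_mul, Complex.norm_natCast, Complex.norm_real, Real.norm_eq_abs]
    rw [h5, h3]
    refine (norm_sum_le _ _).trans (sum_le_sum fun r hrm => ?_)
    rw [norm_mul, norm_mul, norm_mul]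
    have := mul_le_mul_of_nonneg_right (hr r hrm)
      (show 0 ≤ ‖FA A ((r : ℝ) / M)‖ * ‖FA B ((r : ℝ) / M)‖ by positivity)
    refine le_trans (le_of_eq ?_) this
    ring
  rw [← mul_sum] at h4
  have h5 := Real.sum_mul_le_sqrt_mul_sqrt (range M) (fun r : ℕ => ‖FA A ((r : ℝ) / M)‖)
    (fun r : ℕ => ‖FA B ((r : ℝ) / M)‖)
  rw [parseval hM A hAM, parseval hM B hBM, ← Real.sqrt_mul (by positivity)] at h5
  have h6 : (M : ℝ) * A.card * (M * B.card) = (M : ℝ) ^ 2 * (A.card * B.card) := by ring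
  rw [h6, Real.sqrt_mul (by positivity), Real.sqrt_sq hM0.le] at h5
  have h7 : (M : ℝ) * |TT A B H / H - TT A B H1 / H1| ≤ M * (√((A.card : ℝ) * B.card) * W) := by
    calc _ ≤ _ := h4
      _ ≤ W * (M * √((A.card : ℝ) * B.card)) := mul_le_mul_of_nonneg_left h5 hW
      _ = _ := by ring
  exact le_of_mul_le_mul_left h7 hM0

/-! ### The kernel -/

lemma FK_far (H : ℕ) (hH : 1 ≤ H) (x : ℝ) : ‖FK H x / H‖ ≤ 3 / (1 + H * dd x) := by
  have hH0 : (0 : ℝ) < H := by exact_mod_cast hH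
  have h1 : FK H x = ∑ m ∈ Ico 1 (H + 1), ee (m * x) := by
    unfold FK
    apply sum_congr _ (fun _ _ => rfl)
    ext i; simp only [mem_Ioc, mem_Ico]; omega
  have h2 := geo_bound 1 (H + 1) (by omega) (M := H) (by push_cast; linarith) x
  rw [← h1] at h2
  rw [norm_div, Complex.norm_natCast, div_le_iff₀ hH0]
  refine h2.trans (le_of_eq ?_)
  unfold KK
  ring

lemma FK_near (H : ℕ) (hH : 1 ≤ H) (x : ℝ) : ‖FK H x / H - 1‖ ≤ 2 * Real.pi * (H * |x|) := by
  have hH0 : (0 : ℝ) < H := by exact_mod_cast hH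
  have hH0c : (H : ℂ) ≠ 0 := by exact_mod_cast hH0.ne'
  have h1 : FK H x / H - 1 = (∑ h ∈ Ioc 0 H, (ee ((h : ℝ) * x) - 1)) / H := by
    unfold FK
    rw [sum_sub_distrib, sum_const, Nat.card_Ioc, nsmul_eq_mul, mul_one, Nat.sub_zero, sub_div,
      div_self hH0c]
  rw [h1, norm_div, Complex.norm_natCast, div_le_iff₀ hH0]
  refine (norm_sum_le _ _).trans ?_
  have h2 : ∀ h ∈ Ioc 0 H, ‖ee ((h : ℝ) * x) - 1‖ ≤ 2 * Real.pi * (H * |x|) := by
    intro h hh
    rw [mem_Ioc] at hh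
    have h3 : ‖ee ((h : ℝ) * x) - 1‖ = dd (h * x) := by
      unfold dd; rw [← norm_neg, neg_sub]
    rw [h3]
    refine (dd_le _).trans ?_
    rw [abs_mul, abs_of_nonneg (Nat.cast_nonneg h)]
    have : (h : ℝ) ≤ H := by exact_mod_cast hh.2
    have h5 := Real.pi_pos
    gcongr
  refine (sum_le_sum h2).trans ?_
  rw [sum_const, Nat.card_Ioc, nsmul_eq_mul, Nat.sub_zero]
  linarith

/-- `C` is a constant for Vinogradov's bound -/
def VC (C : ℝ) : Prop := 0 < C ∧ ∀ N q : ℕ, 1 ≤ N → 1 ≤ q → ∀ c : ℤ, IsCoprime c (q : ℤ) →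
    ∀ α : ℝ, |α - c / q| ≤ 1 / (q : ℝ) ^ 2 →
    ‖SP N α‖ ≤ C * (1 + Real.log N) ^ 7 * VB N q

/-- the error term -/
noncomputable def ERR (N H H1 : ℕ) (Q : ℝ) : ℝ :=
  (1 + Real.log N) ^ 7 * (N / √(H : ℝ) + (N : ℝ) ^ (4 / 5 : ℝ) + √(N * Q)) + N * H1 / Q

lemma one_point {C : ℝ} (hC : VC C) {N M m : ℕ} (hN : 1 ≤ N) (hm : 1 ≤ m) (hmM : 2 * m ≤ M)
    (H H1 : ℕ) (hH : 1 ≤ H) (hHH : H ≤ H1) (Q : ℝ) (hQ : 0 < Q) (β : ℝ)
    (hβ : β = (m : ℝ) / M ∨ β = -((m : ℝ) / M)) :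
    ‖SP N (-β)‖ * ‖FK H β / H - FK H1 β / H1‖ ≤ (6 * C + 26) * ERR N H H1 Q := by
  obtain ⟨hC0, hC⟩ := hC
  have hM : 1 ≤ M := by omega
  have hM0 : (0 : ℝ) < M := by exact_mod_cast hM
  have hm0 : (0 : ℝ) < m := by exact_mod_cast hm
  have hN1 : (1 : ℝ) ≤ N := by exact_mod_cast hN
  have hN0 : (0 : ℝ) < N := by linarith
  have hH0 : (0 : ℝ) < H := by exact_mod_cast hH
  have hH1 : 1 ≤ H1 := by omega
  have hH10 : (0 : ℝ) < H1 := by exact_mod_cast hH1
  have hHHr : (H : ℝ) ≤ H1 := by exact_mod_cast hHH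
  have hlogN : 0 ≤ Real.log N := Real.log_nonneg hN1
  set L : ℝ := 1 + Real.log N with hL
  have hL1 : 1 ≤ L := by linarith
  set q : ℕ := M / m with hq
  have hq2 : 2 ≤ q := (Nat.le_div_iff_mul_le (by omega)).2 hmM
  have hq1 : 1 ≤ q := by omega
  have hqr : (1 : ℝ) ≤ q := by exact_mod_cast hq1
  have hq0 : (0 : ℝ) < q := by linarith
  have hqm : (q : ℝ) * m ≤ M := by exact_mod_cast Nat.div_mul_le_self M m
  have hqm' : (M : ℝ) < (q + 1) * m := by
    have : M < m * (q + 1) := by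
      have := Nat.lt_mul_div_succ M (show 0 < m by omega)
      simpa [hq] using this
    have h2 : (M : ℝ) < ((m * (q + 1) : ℕ) : ℝ) := by exact_mod_cast this
    push_cast at h2
    linarith
  set g : ℝ := (m : ℝ) / M with hg
  have hg0 : 0 < g := by positivity
  have hgq : g ≤ 1 / q := by
    rw [hg, div_le_div_iff₀ hM0 hq0]; linarith
  have hgq' : 1 / (2 * (q : ℝ)) ≤ g := by
    rw [hg, div_le_div_iff₀ (by positivity) hM0]
    nlinarith
  have hg2 : g ≤ 1 / 2 := by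
    rw [hg, div_le_div_iff₀ hM0 (by norm_num)]
    have : ((2 * m : ℕ) : ℝ) ≤ M := by exact_mod_cast hmM
    push_cast at this; linarith
  have hdiff : |g - 1 / q| ≤ 1 / (q : ℝ) ^ 2 := by
    rw [abs_sub_comm, abs_of_nonneg (by linarith)]
    have e : 1 / (q : ℝ) - g = (M - q * m) / (q * M) := by rw [hg]; field_simp
    rw [e]
    calc (M - (q : ℝ) * m) / (q * M) ≤ m / (q * M) := by
          apply div_le_div_of_nonneg_right _ (by positivity)
          linarith
      _ = g / q := by rw [hg]; field_simp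
      _ ≤ (1 / q) / q := div_le_div_of_nonneg_right hgq hq0.le
      _ = _ := by field_simp
  have habs : |β| = g := by
    rcases hβ with h | h
    · rw [h, abs_of_pos hg0]
    · rw [h, abs_neg, abs_of_pos hg0]
  have hdd : 4 * g ≤ dd β := by
    have h1 := dd_ge hg0.le (by linarith : g ≤ 1)
    have h2 : min g (1 - g) = g := min_eq_left (by linarith)
    rw [h2] at h1
    rcases hβ with h | h
    · rw [h]; exact h1
    · rw [h, dd_neg]; exact h1
  have hvin : ‖SP N (-β)‖ ≤ C * L ^ 7 * VB N q := by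
    rcases hβ with h | h
    · apply hC N q hN hq1 (-1) (isCoprime_one_left.neg_left)
      rw [h]
      have e : -g - ((-1 : ℤ) : ℝ) / q = -(g - 1 / q) := by push_cast; ring
      rw [e, abs_neg]; exact hdiff
    · apply hC N q hN hq1 1 isCoprime_one_left
      rw [h, neg_neg]
      push_cast
      exact hdiff
  have hERR0 : 0 ≤ N * H1 / Q := by positivity
  have hV1 : 0 ≤ N / √(H : ℝ) + (N : ℝ) ^ (4 / 5 : ℝ) + √(N * Q) := by positivity
  have hERR : 0 ≤ L ^ 7 * (N / √(H : ℝ) + (N : ℝ) ^ (4 / 5 : ℝ) + √(N * Q)) := by positivity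
  rcases le_or_gt (q : ℝ) Q with hqQ | hqQ
  · -- `q ≤ Q`
    have h1 : ‖FK H β / H - FK H1 β / H1‖ ≤ 6 * (q / (q + 2 * H)) := by
      have a1 := FK_far H hH β
      have a2 := FK_far H1 hH1 β
      have a3 : 3 / (1 + (H1 : ℝ) * dd β) ≤ 3 / (1 + H * dd β) := by
        have := dd_nonneg β
        apply div_le_div_of_nonneg_left (by norm_num) (by positivity)
        nlinarith
      have a4 : 3 / (1 + (H : ℝ) * dd β) ≤ 3 * (q / (q + 2 * H)) := by
        have b1 : 2 / (q : ℝ) ≤ dd β := by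
          have : 2 / (q : ℝ) = 4 * (1 / (2 * q)) := by field_simp; norm_num
          rw [this]; linarith
        have b2 : 1 + 2 * (H : ℝ) / q ≤ 1 + H * dd β := by
          have : (H : ℝ) * (2 / q) ≤ H * dd β := mul_le_mul_of_nonneg_left b1 hH0.le
          have e : 2 * (H : ℝ) / q = H * (2 / q) := by ring
          linarith
        have b3 : (q : ℝ) / (q + 2 * H) = 1 / (1 + 2 * H / q) := by field_simp
        rw [b3, mul_one_div]
        exact div_le_div_of_nonneg_left (by norm_num) (by positivity) b2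
      calc _ ≤ ‖FK H β / H‖ + ‖FK H1 β / H1‖ := norm_sub_le _ _
        _ ≤ _ := by linarith
    have h2 : VB N q * (q / (q + 2 * H)) ≤ N / √(H : ℝ) + (N : ℝ) ^ (4 / 5 : ℝ) + √(N * Q) := by
      have b0 : 0 ≤ (q : ℝ) / (q + 2 * H) := by positivity
      have b1 : (q : ℝ) / (q + 2 * H) ≤ 1 := by
        rw [div_le_one (by positivity)]; linarith
      have hsq : 0 < √(q : ℝ) := Real.sqrt_pos.2 hq0
      have hsH : 0 < √(H : ℝ) := Real.sqrt_pos.2 hH0
      have b2 : N / √(q : ℝ) * (q / (q + 2 * H)) ≤ N / √(H : ℝ) := by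
        have c1 : N / √(q : ℝ) * (q / (q + 2 * H)) = N * (√q / (q + 2 * H)) := by
          have : (q : ℝ) = √q * √q := (Real.mul_self_sqrt hq0.le).symm
          field_simp
          nlinarith
        rw [c1, div_eq_mul_one_div (N : ℝ) (√(H : ℝ))]
        apply mul_le_mul_of_nonneg_left _ hN0.le
        rw [div_le_div_iff₀ (by positivity) hsH]
        nlinarith [sq_nonneg (√(q : ℝ) - √(H : ℝ)), Real.mul_self_sqrt hq0.le,
          Real.mul_self_sqrt hH0.le]
      have b3 : √((N : ℝ) * q) ≤ √(N * Q) := Real.sqrt_le_sqrt (by gcongr)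
      unfold VB
      calc (N / √(q : ℝ) + (N : ℝ) ^ (4 / 5 : ℝ) + √(N * q)) * (q / (q + 2 * H)) =
            N / √(q : ℝ) * (q / (q + 2 * H)) + (N : ℝ) ^ (4 / 5 : ℝ) * (q / (q + 2 * H)) +
              √(N * q) * (q / (q + 2 * H)) := by ring
        _ ≤ N / √(H : ℝ) + (N : ℝ) ^ (4 / 5 : ℝ) * 1 + √(N * q) * 1 := by gcongr
        _ ≤ _ := by linarith
    calc ‖SP N (-β)‖ * ‖FK H β / H - FK H1 β / H1‖ ≤
          (C * L ^ 7 * VB N q) * (6 * (q / (q + 2 * H))) := by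
            apply mul_le_mul hvin h1 (norm_nonneg _)
            unfold VB; positivity
      _ = 6 * C * (L ^ 7 * (VB N q * (q / (q + 2 * H)))) := by ring
      _ ≤ 6 * C * (L ^ 7 * (N / √(H : ℝ) + (N : ℝ) ^ (4 / 5 : ℝ) + √(N * Q))) := by gcongr
      _ ≤ (6 * C + 26) * ERR N H H1 Q := by
            unfold ERR
            rw [← hL]
            nlinarith
  · -- `q > Q`
    have hgQ : g ≤ 1 / Q := hgq.trans (one_div_le_one_div_of_le hQ hqQ.le)
    have h1 : ‖FK H β / H - FK H1 β / H1‖ ≤ 4 * Real.pi * (H1 / Q) := by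
      have a1 := FK_near H hH β
      have a2 := FK_near H1 hH1 β
      rw [habs] at a1 a2
      have e : FK H β / H - FK H1 β / H1 = (FK H β / H - 1) - (FK H1 β / H1 - 1) := by ring
      rw [e]
      refine (norm_sub_le _ _).trans ?_
      have hpi := Real.pi_pos
      have a3 : (H : ℝ) * g ≤ H1 / Q := by
        calc (H : ℝ) * g ≤ H1 * (1 / Q) := by gcongr
          _ = _ := by ring
      have a4 : (H1 : ℝ) * g ≤ H1 / Q := by
        calc (H1 : ℝ) * g ≤ H1 * (1 / Q) := by gcongr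
          _ = _ := by ring
      have a5 : 2 * Real.pi * (H * g) ≤ 2 * Real.pi * (H1 / Q) := by gcongr
      have a6 : 2 * Real.pi * (H1 * g) ≤ 2 * Real.pi * (H1 / Q) := by gcongr
      linarith
    have hpi := Real.pi_lt_d2
    have hpi0 := Real.pi_pos
    calc ‖SP N (-β)‖ * ‖FK H β / H - FK H1 β / H1‖ ≤ (2 * N) * (4 * Real.pi * (H1 / Q)) := by
            apply mul_le_mul (SP_le N _) h1 (norm_nonneg _) (by positivity)
      _ = 8 * Real.pi * (N * H1 / Q) := by ring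
      _ ≤ 26 * (N * H1 / Q) := by
            apply mul_le_mul_of_nonneg_right _ hERR0
            linarith
      _ ≤ (6 * C + 26) * ERR N H H1 Q := by
            unfold ERR
            rw [← hL]
            nlinarith

lemma ee_red {M : ℕ} (hM : 1 ≤ M) (r : ℕ) (k : ℤ) :
    ee ((k : ℝ) * (((r : ℝ) - M) / M)) = ee ((k : ℝ) * ((r : ℝ) / M)) := by
  have hM0 : (M : ℝ) ≠ 0 := by positivity
  have e : (k : ℝ) * ((r : ℝ) / M) = (k : ℝ) * (((r : ℝ) - M) / M) + (k : ℤ) := by field_simp; ring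
  rw [e, ee_add_int]

/-- **The bilinear estimate.** -/
theorem bilinear : ∃ C : ℝ, 0 < C ∧ ∀ N : ℕ, 1 ≤ N → ∀ A B : Finset ℕ, (∀ a ∈ A, a ≤ N) →
    (∀ b ∈ B, b ≤ N) → ∀ H H1 : ℕ, 1 ≤ H → H ≤ H1 → (∀ a ∈ A, ∀ b ∈ B, a + b + H1 ≤ N) →
    ∀ Q : ℝ, 0 < Q →
    |TT A B H / H - TT A B H1 / H1| ≤ C * √((A.card : ℝ) * B.card) * ERR N H H1 Q := by
  obtain ⟨C, hC⟩ := vinoP
  have hC' : VC C := hC
  refine ⟨6 * C + 26, by linarith [hC.1], fun N hN A B hA hB H H1 hH hHH hAB Q hQ => ?_⟩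
  have hlogN : 0 ≤ Real.log N := Real.log_nonneg (by exact_mod_cast hN)
  have hE : 0 ≤ ERR N H H1 Q := by unfold ERR; positivity
  have hE2 : 0 ≤ (6 * C + 26) * ERR N H H1 Q := by have := hC.1; positivity
  have key := TT_diff (Nat.lt_succ_self N) A B (fun a ha => by have := hA a ha; omega)
    (fun b hb => by have := hB b hb; omega) H H1 hHH hAB ((6 * C + 26) * ERR N H H1 Q) hE2 (by
      intro r hr
      rw [mem_range] at hr
      have hM0 : ((N.succ : ℕ) : ℝ) ≠ 0 := by positivity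
      rcases Nat.eq_zero_or_pos r with h0 | h0
      · subst h0
        have hH0 : (H : ℂ) ≠ 0 := by
          have : 0 < H := hH
          exact_mod_cast this.ne'
        have hH10 : (H1 : ℂ) ≠ 0 := by
          have : 0 < H1 := by omega
          exact_mod_cast this.ne'
        have : FK H (((0 : ℕ) : ℝ) / (N.succ : ℕ)) / H - FK H1 (((0 : ℕ) : ℝ) / (N.succ : ℕ)) / H1 = 0 := by
          unfold FK
          simp [ee_zero, hH0, hH10]
        rw [this, norm_zero, mul_zero]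
        exact hE2
      · rcases le_or_gt (2 * r) N.succ with h | h
        · exact one_point hC' hN h0 h H H1 hH hHH Q hQ _ (Or.inl rfl)
        · have hm1 : 1 ≤ N.succ - r := by omega
          have hm2 : 2 * (N.succ - r) ≤ N.succ := by omega
          have key := one_point hC' hN hm1 hm2 H H1 hH hHH Q hQ _ (Or.inr rfl)
          have e0 : -(((N.succ - r : ℕ) : ℝ) / (N.succ : ℕ)) = (((r : ℝ) - (N.succ : ℕ)) / (N.succ : ℕ)) := by
            rw [Nat.cast_sub (by omega)]; ring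
          rw [e0] at key
          have e1 : ∀ K : ℕ, FK K (((r : ℝ) - (N.succ : ℕ)) / (N.succ : ℕ)) = FK K ((r : ℝ) / (N.succ : ℕ)) := by
            intro K
            unfold FK
            apply sum_congr rfl
            intro i _
            have := ee_red (M := N.succ) (by omega) r (i : ℤ)
            push_cast at this ⊢
            exact this
          have e2 : SP N (-(((r : ℝ) - (N.succ : ℕ)) / (N.succ : ℕ))) = SP N (-((r : ℝ) / (N.succ : ℕ))) := by
            unfold SP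
            apply sum_congr rfl
            intro i _
            have := ee_red (M := N.succ) (by omega) r (-(i : ℤ))
            push_cast at this ⊢
            rw [mul_neg, mul_neg, ← neg_mul, ← neg_mul, this]
          rw [e1, e1, e2] at key
          exact key)
  calc |TT A B H / H - TT A B H1 / H1| ≤ _ := key
    _ = _ := by ring

end Pool.Agent.W301.SS
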