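import Mathlib
import Pool.Agent.H33.G.R_seed8.W301.SS.Core
import Pool.Agent.H33.G.R_seed8.H442R2.EHI.PntErr

/-! Sums over pairs: asymptotic for intervals longer than a power of the logarithm. -/

set_option autoImplicit false

namespace Pool.Agent.W301.SS
open Finset Filter

lemma sum_om_Ioc (m y : ℕ) : ∑ h ∈ Ioc 0 y, om (m + h) =
    Chebyshev.theta ((m + y : ℕ) : ℝ) - Chebyshev.theta (m : ℝ) := by
  rw [← sum_om, ← sum_om]
  have h1 : Icc 1 (m + y) = Icc 1 m ∪ Ioc m (m + y) := by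
    ext i; simp only [mem_union, mem_Icc, mem_Ioc]; omega
  have h2 : Disjoint (Icc 1 m) (Ioc m (m + y)) := by
    rw [disjoint_left]; intro i hi hi'
    rw [mem_Icc] at hi; rw [mem_Ioc] at hi'; omega
  rw [h1, sum_union h2, add_sub_cancel_left]
  have h3 : Ioc m (m + y) = (Ioc 0 y).map (addLeftEmbedding m) := by
    rw [map_add_left_Ioc, add_zero]
  rw [h3, sum_map]
  rfl

lemma ev_log (k : ℕ) (c : ℝ) (δ : ℝ) (hδ : 0 < δ) : ∀ᶠ N : ℕ in atTop,
    c * Real.log N ^ k ≤ (N : ℝ) ^ δ := by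
  have h1 : (fun x : ℝ => Real.log x ^ k) =o[atTop] (fun x : ℝ => x ^ δ) := by
    have := isLittleO_log_rpow_rpow_atTop (s := δ) (k : ℝ) hδ
    refine this.congr_left fun x => ?_
    rw [Real.rpow_natCast]
  have h2 : ∀ᶠ x : ℝ in atTop, ‖Real.log x ^ k‖ ≤ (1 / (|c| + 1)) * ‖x ^ δ‖ :=
    h1.bound (by positivity)
  have h3 := tendsto_natCast_atTop_atTop.eventually (h2.and (eventually_ge_atTop (1 : ℝ)))
  filter_upwards [h3] with N hN
  obtain ⟨h4, h5⟩ := hN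
  have h6 : 0 ≤ Real.log N := Real.log_nonneg h5
  rw [Real.norm_of_nonneg (by positivity), Real.norm_of_nonneg (by positivity)] at h4
  have h7 : (0 : ℝ) < |c| + 1 := by positivity
  have h8 : (|c| + 1) * Real.log N ^ k ≤ (N : ℝ) ^ δ := by
    calc (|c| + 1) * Real.log N ^ k ≤ (|c| + 1) * (1 / (|c| + 1) * (N : ℝ) ^ δ) :=
          mul_le_mul_of_nonneg_left h4 h7.le
      _ = _ := by field_simp
  refine le_trans ?_ h8
  apply mul_le_mul_of_nonneg_right _ (by positivity)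
  have := le_abs_self c
  linarith

lemma ev_L (c : ℝ) : ∀ᶠ N : ℕ in atTop, c ≤ Real.log N :=
  (Real.tendsto_log_atTop.comp tendsto_natCast_atTop_atTop).eventually_ge_atTop c

/-- the prime number theorem, uniformly up to `4 N` -/
lemma pnt_unif (U : ℕ) : ∀ᶠ N : ℕ in atTop, ∀ m : ℕ, m ≤ 4 * N →
    |Chebyshev.theta (m : ℝ) - m| ≤ N / Real.log N ^ U := by
  obtain ⟨C, hC, h⟩ := Pool.Agent.H442R2.EHI.PntErrAux.thetaU (U + 1)
  filter_upwards [ev_L (4 * C * 2 ^ (U + 1) + 1), ev_log U 3 (1 / 2) (by norm_num),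
    eventually_ge_atTop 16] with N h1 h2 hN16 m hm
  have hNr : (16 : ℝ) ≤ N := by exact_mod_cast hN16
  have hN0 : (0 : ℝ) < N := by linarith
  have hC1 : 0 < 4 * C * 2 ^ (U + 1) := by positivity
  set ℓ := Real.log N with hℓ
  have hℓ0 : 0 < ℓ := by linarith
  rcases le_or_gt ((m : ℝ)) ((N : ℝ) ^ (1 / 2 : ℝ)) with hm1 | hm1
  · -- small `m`
    have h3 : |Chebyshev.theta (m : ℝ) - m| ≤ 3 * (N : ℝ) ^ (1 / 2 : ℝ) := by
      have a1 := Chebyshev.theta_le_log4_mul_x (x := m) (Nat.cast_nonneg m)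
      have a2 := Chebyshev.theta_nonneg (m : ℝ)
      have a3 : Real.log 4 * m ≤ 2 * m := mul_le_mul_of_nonneg_right log4 (Nat.cast_nonneg m)
      have a4 : (0 : ℝ) ≤ m := Nat.cast_nonneg m
      rw [abs_le]; constructor <;> linarith
    refine h3.trans ?_
    rw [le_div_iff₀ (by positivity)]
    calc 3 * (N : ℝ) ^ (1 / 2 : ℝ) * ℓ ^ U = (N : ℝ) ^ (1 / 2 : ℝ) * (3 * ℓ ^ U) := by ring
      _ ≤ (N : ℝ) ^ (1 / 2 : ℝ) * (N : ℝ) ^ (1 / 2 : ℝ) := by gcongr
      _ = N := by rw [← Real.rpow_add hN0]; norm_num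
  · have hs4 : (4 : ℝ) ≤ (N : ℝ) ^ (1 / 2 : ℝ) := by
      rw [← Real.sqrt_eq_rpow]
      apply Real.le_sqrt_of_sq_le; linarith
    have hm4 : (4 : ℝ) < m := by linarith
    have hm2 : 2 ≤ m := by
      have : 4 < m := by exact_mod_cast hm4
      omega
    have h3 := h m hm2
    have hm0 : (0 : ℝ) < m := by linarith
    have hlm : ℓ / 2 ≤ Real.log m := by
      have := Real.log_le_log (by positivity) hm1.le
      rw [Real.log_rpow hN0] at this
      linarith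
    refine h3.trans ?_
    have h4 : (m : ℝ) / Real.log m ^ (U + 1) ≤ 4 * N / (ℓ / 2) ^ (U + 1) := by
      have hmr : (m : ℝ) ≤ 4 * N := by exact_mod_cast hm
      gcongr
    calc C * (m / Real.log m ^ (U + 1)) ≤ C * (4 * N / (ℓ / 2) ^ (U + 1)) := by gcongr
      _ = (4 * C * 2 ^ (U + 1) / ℓ) * (N / ℓ ^ U) := by
          rw [div_pow, pow_succ ℓ]; field_simp
      _ ≤ 1 * (N / ℓ ^ U) := by
          apply mul_le_mul_of_nonneg_right _ (by positivity)
          rw [div_le_one hℓ0]; linarith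
      _ = _ := one_mul _

lemma TT_pnt (A B : Finset ℕ) (N y : ℕ) (hA : ∀ a ∈ A, a ≤ N) (hB : ∀ b ∈ B, b ≤ N)
    (hy : y ≤ 2 * N) (E : ℝ) (hE : ∀ m : ℕ, m ≤ 4 * N → |Chebyshev.theta (m : ℝ) - m| ≤ E) :
    |TT A B y - (A.card : ℝ) * B.card * y| ≤ (A.card : ℝ) * B.card * (2 * E) := by
  have e : TT A B y - (A.card : ℝ) * B.card * y = ∑ a ∈ A, ∑ b ∈ B,
      (Chebyshev.theta ((a + b + y : ℕ) : ℝ) - Chebyshev.theta ((a + b : ℕ) : ℝ) - y) := by
    unfold TT
    simp_rw [sum_om_Ioc, sum_sub_distrib, sum_const, nsmul_eq_mul]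
    ring
  rw [e]
  refine (abs_sum_le_sum_abs _ _).trans ?_
  have : ∀ a ∈ A, |∑ b ∈ B, (Chebyshev.theta ((a + b + y : ℕ) : ℝ) -
      Chebyshev.theta ((a + b : ℕ) : ℝ) - y)| ≤ B.card * (2 * E) := by
    intro a ha
    refine (abs_sum_le_sum_abs _ _).trans ?_
    have h2 : ∀ b ∈ B, |Chebyshev.theta ((a + b + y : ℕ) : ℝ) -
        Chebyshev.theta ((a + b : ℕ) : ℝ) - y| ≤ 2 * E := by
      intro b hb
      have h3 := hE (a + b + y) (by have := hA a ha; have := hB b hb; omega)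
      have h4 := hE (a + b) (by have := hA a ha; have := hB b hb; omega)
      rw [abs_le] at h3 h4 ⊢
      push_cast at h3 h4 ⊢
      constructor <;> linarith
    refine (sum_le_sum h2).trans ?_
    rw [sum_const, nsmul_eq_mul]
  refine (sum_le_sum this).trans ?_
  rw [sum_const, nsmul_eq_mul]
  linarith

/-- Sums over pairs, weighted by `log p`. -/
theorem thetaPair (C : ℕ) (ε : ℝ) (hε : 0 < ε) : ∃ K : ℕ, ∀ᶠ N : ℕ in atTop,
    ∀ A B : Finset ℕ, (∀ a ∈ A, a ≤ N) → (∀ b ∈ B, b ≤ N) →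
    (N : ℝ) ^ 2 ≤ (A.card : ℝ) * B.card * Real.log N ^ (2 * C) →
    ∀ y : ℕ, Real.log N ^ K ≤ y → y ≤ 2 * N →
    |TT A B y - (A.card : ℝ) * B.card * y| ≤ ε * ((A.card : ℝ) * B.card * y) := by
  obtain ⟨C0, hC0, hbil⟩ := bilinear
  set K2 : ℕ := 2 * C + 18 with hK2
  set K1 : ℕ := K2 + C + 1 with hK1
  refine ⟨K2, ?_⟩
  filter_upwards [ev_L (C0 * 4000 / ε + 16 / ε + 16), ev_log (K1 + 1) 2 1 (by norm_num),
    ev_log (C + 8) 2 (1 / 5) (by norm_num), pnt_unif (K1 + 1), eventually_ge_atTop 16] with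
    N h1 h2 h3 h4 hN16 A B hA hB hAB y hy1 hy2
  have hNr : (16 : ℝ) ≤ N := by exact_mod_cast hN16
  have hN0 : (0 : ℝ) < N := by linarith
  set ℓ := Real.log N with hℓ
  have hc1 : 0 < C0 * 4000 / ε := by positivity
  have hc2 : 0 < 16 / ε := by positivity
  have hℓ16 : 16 ≤ ℓ := by linarith
  have hℓ0 : 0 < ℓ := by linarith
  rw [Real.rpow_one] at h2
  set P : ℝ := (A.card : ℝ) * B.card with hP
  have hP0 : 0 < P := by
    by_contra hcon
    have : P = 0 := le_antisymm (not_lt.1 hcon) (by positivity)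
    rw [this, zero_mul] at hAB
    nlinarith
  -- the long length
  set H1 : ℕ := ⌊(N : ℝ) / ℓ ^ K1⌋₊ with hH1
  have hH1le : (H1 : ℝ) ≤ N / ℓ ^ K1 := Nat.floor_le (by positivity)
  have hbig : 2 ≤ (N : ℝ) / ℓ ^ K1 := by
    rw [le_div_iff₀ (by positivity)]
    calc 2 * ℓ ^ K1 ≤ 2 * ℓ ^ (K1 + 1) := by
          apply mul_le_mul_of_nonneg_left _ (by norm_num)
          exact pow_le_pow_right₀ (by linarith) (by omega)
      _ ≤ N := h2
  have hH1ge : (N : ℝ) / ℓ ^ K1 ≤ 2 * H1 := by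
    have := Nat.lt_floor_add_one ((N : ℝ) / ℓ ^ K1)
    rw [← hH1] at this
    linarith
  have hH1pos : 1 ≤ H1 := Nat.le_floor (by push_cast; linarith)
  have hH1N : H1 ≤ N := by
    have : (H1 : ℝ) ≤ N := hH1le.trans (div_le_self hN0.le (one_le_pow₀ (by linarith)))
    exact_mod_cast this
  have hH10 : (0 : ℝ) < H1 := by exact_mod_cast hH1pos
  -- prime number theorem for lengths at least `H1`
  have hlong : ∀ z : ℕ, H1 ≤ z → z ≤ 2 * N → |TT A B z - P * z| ≤ (ε / 4) * (P * z) := by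
    intro z hz1 hz2
    have a1 := TT_pnt A B N z hA hB hz2 (N / ℓ ^ (K1 + 1)) h4
    refine a1.trans ?_
    have hz : (H1 : ℝ) ≤ z := by exact_mod_cast hz1
    have a2 : 2 * (N / ℓ ^ (K1 + 1)) ≤ (4 / ℓ) * z := by
      calc 2 * (N / ℓ ^ (K1 + 1)) = (2 / ℓ) * (N / ℓ ^ K1) := by rw [pow_succ]; field_simp
        _ ≤ (2 / ℓ) * (2 * H1) := by gcongr
        _ ≤ (2 / ℓ) * (2 * z) := by gcongr
        _ = _ := by ring
    have a3 : 4 / ℓ ≤ ε / 4 := by
      rw [div_le_div_iff₀ hℓ0 (by norm_num)]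
      have : 16 / ε ≤ ℓ := by linarith
      rw [div_le_iff₀ hε] at this
      linarith
    calc P * (2 * (N / ℓ ^ (K1 + 1))) ≤ P * ((4 / ℓ) * z) := by gcongr
      _ ≤ P * ((ε / 4) * z) := by gcongr
      _ = _ := by ring
  rcases le_or_gt H1 y with hcase | hcase
  · refine (hlong y hcase hy2).trans ?_
    apply mul_le_mul_of_nonneg_right _ (by positivity)
    linarith
  · -- short lengths
    have hy0 : (1 : ℝ) ≤ y := le_trans (one_le_pow₀ (by linarith)) hy1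
    have hy1n : 1 ≤ y := by exact_mod_cast hy0
    have hyp : (0 : ℝ) < y := by linarith
    have b1 := hbil (4 * N) (by omega) A B (fun a ha => by have := hA a ha; omega)
      (fun b hb => by have := hB b hb; omega) y H1 hy1n hcase.le
      (fun a ha b hb => by have := hA a ha; have := hB b hb; omega) (N / ℓ ^ K2) (by positivity)
    have b2 := hlong H1 le_rfl (by omega)
    -- the error term
    have hsP : N / ℓ ^ C ≤ √P := by
      apply Real.le_sqrt_of_sq_le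
      rw [div_pow, div_le_iff₀ (by positivity), ← pow_mul, mul_comm C 2]
      exact hAB
    have hsP0 : 0 < √P := Real.sqrt_pos.2 hP0
    have hL : 1 + Real.log ((4 * N : ℕ) : ℝ) ≤ 2 * ℓ := by
      push_cast
      rw [Real.log_mul (by norm_num) (by linarith)]
      have := log4
      linarith
    have hL0 : 0 ≤ 1 + Real.log ((4 * N : ℕ) : ℝ) := by
      have : 0 ≤ Real.log ((4 * N : ℕ) : ℝ) := Real.log_natCast_nonneg _
      linarith
    have hL7 : (1 + Real.log ((4 * N : ℕ) : ℝ)) ^ 7 ≤ 128 * ℓ ^ 7 := by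
      calc _ ≤ (2 * ℓ) ^ 7 := pow_le_pow_left₀ hL0 hL 7
        _ = _ := by ring
    have c1 : ((4 * N : ℕ) : ℝ) / √(y : ℝ) ≤ 4 * (N / ℓ ^ (C + 9)) := by
      have : ℓ ^ (C + 9) ≤ √(y : ℝ) := by
        apply Real.le_sqrt_of_sq_le
        rw [← pow_mul]
        have e : (C + 9) * 2 = K2 := by omega
        rw [e]; exact hy1
      push_cast
      rw [mul_div_assoc]
      gcongr
    have c2 : ((4 * N : ℕ) : ℝ) ^ (4 / 5 : ℝ) ≤ 4 * (N / ℓ ^ (C + 8)) := by
      push_cast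
      rw [Real.mul_rpow (by norm_num) hN0.le]
      have d1 : (4 : ℝ) ^ (4 / 5 : ℝ) ≤ 4 := by
        calc (4 : ℝ) ^ (4 / 5 : ℝ) ≤ (4 : ℝ) ^ (1 : ℝ) :=
              Real.rpow_le_rpow_of_exponent_le (by norm_num) (by norm_num)
          _ = 4 := Real.rpow_one _
      have d2 : (N : ℝ) ^ (4 / 5 : ℝ) ≤ N / ℓ ^ (C + 8) := by
        rw [le_div_iff₀ (by positivity)]
        calc (N : ℝ) ^ (4 / 5 : ℝ) * ℓ ^ (C + 8) ≤ (N : ℝ) ^ (4 / 5 : ℝ) * (N : ℝ) ^ (1 / 5 : ℝ) := by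
              apply mul_le_mul_of_nonneg_left _ (by positivity)
              have : 0 ≤ ℓ ^ (C + 8) := by positivity
              linarith
          _ = N := by rw [← Real.rpow_add hN0]; norm_num
      gcongr
    have c3 : √(((4 * N : ℕ) : ℝ) * (N / ℓ ^ K2)) ≤ 2 * (N / ℓ ^ (C + 9)) := by
      apply Real.sqrt_le_iff.2
      refine ⟨by positivity, le_of_eq ?_⟩
      push_cast
      rw [mul_pow, div_pow, ← pow_mul]
      have e : (C + 9) * 2 = K2 := by omega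
      rw [e]
      field_simp
      norm_num
    have c4 : ((4 * N : ℕ) : ℝ) * H1 / (N / ℓ ^ K2) ≤ 4 * (N / ℓ ^ (C + 1)) := by
      push_cast
      calc 4 * (N : ℝ) * H1 / (N / ℓ ^ K2) ≤ 4 * (N : ℝ) * (N / ℓ ^ K1) / (N / ℓ ^ K2) := by gcongr
        _ = _ := by
            rw [hK1]
            have e : ℓ ^ (K2 + C + 1) = ℓ ^ K2 * ℓ ^ (C + 1) := by rw [← pow_add]; congr 1
            rw [e]; field_simp
    have c5 : (N : ℝ) / ℓ ^ (C + 9) ≤ N / ℓ ^ (C + 8) := by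
      apply div_le_div_of_nonneg_left hN0.le (by positivity)
      exact pow_le_pow_right₀ (by linarith) (by omega)
    have c6 : ERR (4 * N) y H1 (N / ℓ ^ K2) ≤ 2000 * (N / ℓ ^ (C + 1)) := by
      unfold ERR
      have d0 : ((4 * N : ℕ) : ℝ) / √(y : ℝ) + ((4 * N : ℕ) : ℝ) ^ (4 / 5 : ℝ) +
          √(((4 * N : ℕ) : ℝ) * (N / ℓ ^ K2)) ≤ 10 * (N / ℓ ^ (C + 8)) := by linarith
      have d1 : 0 ≤ ((4 * N : ℕ) : ℝ) / √(y : ℝ) + ((4 * N : ℕ) : ℝ) ^ (4 / 5 : ℝ) +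
          √(((4 * N : ℕ) : ℝ) * (N / ℓ ^ K2)) := by positivity
      have d2 : (1 + Real.log ((4 * N : ℕ) : ℝ)) ^ 7 * (((4 * N : ℕ) : ℝ) / √(y : ℝ) +
          ((4 * N : ℕ) : ℝ) ^ (4 / 5 : ℝ) + √(((4 * N : ℕ) : ℝ) * (N / ℓ ^ K2))) ≤
          (128 * ℓ ^ 7) * (10 * (N / ℓ ^ (C + 8))) := by gcongr
      have d3 : (128 * ℓ ^ 7) * (10 * (N / ℓ ^ (C + 8))) = 1280 * (N / ℓ ^ (C + 1)) := by
        have e : ℓ ^ (C + 8) = ℓ ^ 7 * ℓ ^ (C + 1) := by rw [← pow_add]; congr 1; omega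
        rw [e]; field_simp; norm_num
      have d4 : 0 ≤ (N : ℝ) / ℓ ^ (C + 1) := by positivity
      linarith
    have c7 : C0 * √P * ERR (4 * N) y H1 (N / ℓ ^ K2) ≤ (ε / 2) * P := by
      calc C0 * √P * ERR (4 * N) y H1 (N / ℓ ^ K2) ≤ C0 * √P * (2000 * (N / ℓ ^ (C + 1))) := by
            gcongr
        _ = (C0 * 2000 / ℓ) * (√P * (N / ℓ ^ C)) := by rw [pow_succ]; field_simp
        _ ≤ (C0 * 2000 / ℓ) * (√P * √P) := by gcongr
        _ = (C0 * 2000 / ℓ) * P := by rw [Real.mul_self_sqrt hP0.le]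
        _ ≤ (ε / 2) * P := by
            apply mul_le_mul_of_nonneg_right _ hP0.le
            rw [div_le_div_iff₀ hℓ0 (by norm_num)]
            have : C0 * 4000 / ε ≤ ℓ := by linarith
            rw [div_le_iff₀ hε] at this
            linarith
    have b3 : |TT A B y / y - TT A B H1 / H1| ≤ (ε / 2) * P := b1.trans c7
    have b4 : |TT A B H1 / H1 - P| ≤ (ε / 4) * P := by
      have e : TT A B H1 / H1 - P = (TT A B H1 - P * H1) / H1 := by field_simp
      rw [e, abs_div, abs_of_pos hH10, div_le_iff₀ hH10]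
      linarith
    have b5 : |TT A B y / y - P| ≤ ε * P := by
      have := abs_sub_le (TT A B y / y) (TT A B H1 / H1) P
      have h0 : 0 ≤ ε * P := by positivity
      linarith
    have e : TT A B y - P * y = (TT A B y / y - P) * y := by field_simp
    rw [e, abs_mul, abs_of_pos hyp]
    calc |TT A B y / y - P| * y ≤ (ε * P) * y := by gcongr
      _ = _ := by ring

end Pool.Agent.W301.SS
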