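import Mathlib
import Pool.Agent.H33.G.R_seed8.W301.SS.Asym

/-! From weights `log p` to counts of primes; from pairs to translates. -/

set_option autoImplicit false

namespace Pool.Agent.W301.SS
open Finset Filter

/-- the number of primes in `(n, n + y]` -/
def pn (n y : ℕ) : ℕ := ((Ioc n (n + y)).filter Nat.Prime).card

lemma pn_mono {n y z : ℕ} (h : y ≤ z) : pn n y ≤ pn n z := by
  unfold pn
  apply card_le_card
  apply filter_subset_filter
  exact Ioc_subset_Ioc_right (by omega)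

lemma pn_le (n y : ℕ) : pn n y ≤ y := by
  unfold pn
  refine (card_filter_le _ _).trans ?_
  rw [Nat.card_Ioc]; omega

lemma pn_eq (n y : ℕ) : (pn n y : ℝ) = ∑ h ∈ Ioc 0 y, (if (n + h).Prime then (1 : ℝ) else 0) := by
  unfold pn
  have h3 : Ioc n (n + y) = (Ioc 0 y).map (addLeftEmbedding n) := by
    rw [map_add_left_Ioc, add_zero]
  rw [h3, card_filter, sum_map]
  push_cast
  rfl

/-- the number of triples `(a, b, p)` with a prime `p` in `(a + b, a + b + y]` -/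
noncomputable def PCs (A B : Finset ℕ) (y : ℕ) : ℝ := ∑ a ∈ A, ∑ b ∈ B, (pn (a + b) y : ℝ)

lemma conv_low {A B : Finset ℕ} {N y : ℕ} (hA : ∀ a ∈ A, a ≤ N) (hB : ∀ b ∈ B, b ≤ N)
    (hy : y ≤ 2 * N) (L : ℝ) (hL : Real.log ((4 * N : ℕ) : ℝ) ≤ L) : TT A B y ≤ L * PCs A B y := by
  unfold TT PCs
  rw [mul_sum]
  apply sum_le_sum
  intro a ha
  rw [mul_sum]
  apply sum_le_sum
  intro b hb
  rw [pn_eq, mul_sum]
  apply sum_le_sum
  intro h hh
  rw [mem_Ioc] at hh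
  unfold om
  split_ifs with hp
  · rw [mul_one]
    refine le_trans (Real.log_le_log ?_ ?_) hL
    · exact_mod_cast hp.pos
    · have := hA a ha
      have := hB b hb
      exact_mod_cast (by omega : a + b + h ≤ 4 * N)
  · rw [mul_zero]

lemma small_pairs (A B : Finset ℕ) (X : ℕ) :
    ((A ×ˢ B).filter (fun x : ℕ × ℕ => x.1 + x.2 < X)).card ≤ X ^ 2 := by
  have h1 : (A ×ˢ B).filter (fun x : ℕ × ℕ => x.1 + x.2 < X) ⊆ range X ×ˢ range X := by
    intro x hx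
    rw [mem_filter] at hx
    rw [mem_product, mem_range, mem_range]
    omega
  refine (card_le_card h1).trans ?_
  rw [card_product, card_range, sq]

lemma conv_up {A B : Finset ℕ} {X y : ℕ} (L : ℝ) (hL0 : 0 ≤ L) (hL : L ≤ Real.log (X : ℝ))
    (hX : 1 ≤ X) : L * PCs A B y ≤ TT A B y + L * ((X : ℝ) ^ 2 * y) := by
  have e1 : L * PCs A B y = ∑ x ∈ A ×ˢ B, L * (pn (x.1 + x.2) y : ℝ) := by
    unfold PCs
    rw [sum_product, mul_sum]
    apply sum_congr rfl; intro a _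
    rw [mul_sum]
  have e2 : TT A B y = ∑ x ∈ A ×ˢ B, ∑ h ∈ Ioc 0 y, om (x.1 + x.2 + h) := by
    unfold TT
    rw [sum_product]
  rw [e1, e2, ← sum_filter_add_sum_filter_not (A ×ˢ B) (fun x : ℕ × ℕ => x.1 + x.2 < X),
    ← sum_filter_add_sum_filter_not (A ×ˢ B) (fun x : ℕ × ℕ => x.1 + x.2 < X)
      (fun x => ∑ h ∈ Ioc 0 y, om (x.1 + x.2 + h))]
  have h1 : ∑ x ∈ (A ×ˢ B).filter (fun x : ℕ × ℕ => x.1 + x.2 < X), L * (pn (x.1 + x.2) y : ℝ) ≤
      L * ((X : ℝ) ^ 2 * y) := by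
    have h2 : ∀ x ∈ (A ×ˢ B).filter (fun x : ℕ × ℕ => x.1 + x.2 < X), L * (pn (x.1 + x.2) y : ℝ) ≤
        L * y := by
      intro x _
      apply mul_le_mul_of_nonneg_left _ hL0
      exact_mod_cast pn_le _ _
    refine (sum_le_sum h2).trans ?_
    rw [sum_const, nsmul_eq_mul]
    have h3 : ((((A ×ˢ B).filter (fun x : ℕ × ℕ => x.1 + x.2 < X)).card : ℕ) : ℝ) ≤ (X : ℝ) ^ 2 := by
      exact_mod_cast small_pairs A B X
    calc _ ≤ (X : ℝ) ^ 2 * (L * y) := mul_le_mul_of_nonneg_right h3 (by positivity)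
      _ = _ := by ring
  have h2 : ∑ x ∈ (A ×ˢ B).filter (fun x : ℕ × ℕ => ¬ (x.1 + x.2 < X)),
      L * (pn (x.1 + x.2) y : ℝ) ≤
      ∑ x ∈ (A ×ˢ B).filter (fun x : ℕ × ℕ => ¬ (x.1 + x.2 < X)),
        ∑ h ∈ Ioc 0 y, om (x.1 + x.2 + h) := by
    apply sum_le_sum
    intro x hx
    rw [mem_filter] at hx
    rw [pn_eq, mul_sum]
    apply sum_le_sum
    intro h hh
    unfold om
    split_ifs with hp
    · rw [mul_one]
      refine hL.trans (Real.log_le_log ?_ ?_)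
      · exact_mod_cast (by omega : 0 < X)
      · exact_mod_cast (by omega : X ≤ x.1 + x.2 + h)
    · rw [mul_zero]
  have h3 : 0 ≤ ∑ x ∈ (A ×ˢ B).filter (fun x : ℕ × ℕ => x.1 + x.2 < X),
      ∑ h ∈ Ioc 0 y, om (x.1 + x.2 + h) :=
    sum_nonneg fun _ _ => sum_nonneg fun _ _ => om_nonneg _
  linarith

/-- numerical facts for the conversion, valid for all large `N` -/
lemma ev_conv (δ : ℝ) (hδ : 0 < δ) (hδ1 : δ ≤ 1 / 4) : ∀ᶠ N : ℕ in atTop,
    Real.log ((4 * N : ℕ) : ℝ) ≤ (1 + δ) * Real.log N ∧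
    ∃ X : ℕ, 1 ≤ X ∧ (1 - δ) * Real.log N ≤ Real.log X ∧
      (1 - δ) * Real.log N * (X : ℝ) ^ 2 ≤ δ * (N : ℝ) ^ (2 - δ) := by
  filter_upwards [ev_L (2 / δ + 1), ev_log 1 (4 / δ) δ hδ, eventually_ge_atTop 16] with N h1 h2 hN
  have hNr : (16 : ℝ) ≤ N := by exact_mod_cast hN
  have hN0 : (0 : ℝ) < N := by linarith
  have hN1 : (1 : ℝ) ≤ N := by linarith
  have hd : 0 < 2 / δ := by positivity
  set ℓ := Real.log N with hℓ
  have hℓ0 : 0 < ℓ := by linarith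
  constructor
  · push_cast
    rw [Real.log_mul (by norm_num) (by linarith)]
    have := log4
    have h3 : 2 ≤ δ * ℓ := by
      have : 2 / δ ≤ ℓ := by linarith
      rw [div_le_iff₀ hδ] at this
      linarith
    linarith
  · set X : ℕ := ⌈(N : ℝ) ^ (1 - δ)⌉₊ with hX
    have h3 : 1 ≤ (N : ℝ) ^ (1 - δ) := Real.one_le_rpow hN1 (by linarith)
    have h4 : (N : ℝ) ^ (1 - δ) ≤ X := Nat.le_ceil _
    have h5 : (X : ℝ) ≤ 2 * (N : ℝ) ^ (1 - δ) := by
      have := Nat.ceil_lt_add_one (show 0 ≤ (N : ℝ) ^ (1 - δ) by linarith)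
      rw [← hX] at this
      linarith
    refine ⟨X, ?_, ?_, ?_⟩
    · have : (1 : ℝ) ≤ X := h3.trans h4
      exact_mod_cast this
    · rw [← Real.log_rpow hN0]
      exact Real.log_le_log (by positivity) h4
    · have h6 : (X : ℝ) ^ 2 ≤ 4 * (N : ℝ) ^ (2 - 2 * δ) := by
        calc (X : ℝ) ^ 2 ≤ (2 * (N : ℝ) ^ (1 - δ)) ^ 2 := pow_le_pow_left₀ (Nat.cast_nonneg X) h5 2
          _ = 4 * ((N : ℝ) ^ (1 - δ)) ^ 2 := by ring
          _ = 4 * (N : ℝ) ^ (2 - 2 * δ) := by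
              rw [← Real.rpow_natCast, ← Real.rpow_mul hN0.le]
              congr 2; push_cast; ring
      rw [pow_one] at h2
      have h7 : (1 - δ) * ℓ ≤ ℓ := by nlinarith
      have h8 : 4 * ℓ ≤ δ * (N : ℝ) ^ δ := by
        calc 4 * ℓ = δ * (4 / δ * ℓ) := by field_simp
          _ ≤ _ := mul_le_mul_of_nonneg_left h2 hδ.le
      have h9 : 0 ≤ (N : ℝ) ^ (2 - 2 * δ) := by positivity
      calc (1 - δ) * ℓ * (X : ℝ) ^ 2 ≤ ℓ * (4 * (N : ℝ) ^ (2 - 2 * δ)) := by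
            apply mul_le_mul h7 h6 (by positivity) hℓ0.le
        _ = (4 * ℓ) * (N : ℝ) ^ (2 - 2 * δ) := by ring
        _ ≤ (δ * (N : ℝ) ^ δ) * (N : ℝ) ^ (2 - 2 * δ) := mul_le_mul_of_nonneg_right h8 h9
        _ = δ * (N : ℝ) ^ (2 - δ) := by
            rw [mul_assoc, ← Real.rpow_add hN0]
            congr 2; ring

/-- Sums over pairs, for the number of primes. -/
theorem countPair (C : ℕ) (ε : ℝ) (hε : 0 < ε) (hε1 : ε ≤ 1) : ∃ K : ℕ, ∀ᶠ N : ℕ in atTop,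
    ∀ A B : Finset ℕ, (∀ a ∈ A, a ≤ N) → (∀ b ∈ B, b ≤ N) →
    (N : ℝ) ^ 2 ≤ (A.card : ℝ) * B.card * Real.log N ^ (2 * C) →
    ∀ y : ℕ, Real.log N ^ K ≤ y → y ≤ 2 * N →
    |PCs A B y * Real.log N - (A.card : ℝ) * B.card * y| ≤ ε * ((A.card : ℝ) * B.card * y) := by
  obtain ⟨K, hK⟩ := thetaPair C (ε / 4) (by linarith)
  refine ⟨K, ?_⟩
  filter_upwards [hK, ev_conv (ε / 4) (by linarith) (by linarith), ev_L 1,
    ev_log (2 * C) 1 (ε / 4) (by linarith), eventually_ge_atTop 16] with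
    N h1 h2 h3 h4 hN16 A B hA hB hAB y hy1 hy2
  obtain ⟨h5, X, hX1, hX2, hX3⟩ := h2
  have hNr : (16 : ℝ) ≤ N := by exact_mod_cast hN16
  have hN0 : (0 : ℝ) < N := by linarith
  have h6 := h1 A B hA hB hAB y hy1 hy2
  set ℓ := Real.log N with hℓ
  have hℓ0 : 0 < ℓ := by linarith
  set P : ℝ := (A.card : ℝ) * B.card with hP
  have hP0 : 0 ≤ P := by positivity
  have h7 := conv_low hA hB hy2 ((1 + ε / 4) * ℓ) h5
  have h8 := conv_up (A := A) (B := B) (X := X) (y := y) ((1 - ε / 4) * ℓ) (by nlinarith) hX2 hX1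
  have hPN : (N : ℝ) ^ (2 - ε / 4) ≤ P := by
    have a1 : (N : ℝ) ^ 2 ≤ P * (N : ℝ) ^ (ε / 4) := by
      refine hAB.trans (mul_le_mul_of_nonneg_left ?_ hP0)
      linarith
    rw [Real.rpow_sub hN0, div_le_iff₀ (by positivity)]
    rw [show (2 : ℝ) = ((2 : ℕ) : ℝ) by norm_num, Real.rpow_natCast]
    exact a1
  have h9 : (1 - ε / 4) * ℓ * ((X : ℝ) ^ 2 * y) ≤ (ε / 4) * (P * y) := by
    calc (1 - ε / 4) * ℓ * ((X : ℝ) ^ 2 * y) = ((1 - ε / 4) * ℓ * (X : ℝ) ^ 2) * y := by ring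
      _ ≤ ((ε / 4) * (N : ℝ) ^ (2 - ε / 4)) * y := mul_le_mul_of_nonneg_right hX3 (Nat.cast_nonneg y)
      _ ≤ ((ε / 4) * P) * y := by gcongr
      _ = _ := by ring
  have hPy : 0 ≤ P * y := by positivity
  have hPC : 0 ≤ PCs A B y := by
    unfold PCs
    exact sum_nonneg fun _ _ => sum_nonneg fun _ _ => Nat.cast_nonneg _
  rw [abs_le] at h6 ⊢
  constructor
  · -- lower bound
    have b1 : (1 - ε / 4) * (P * y) ≤ (1 + ε / 4) * (PCs A B y * ℓ) := by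
      calc (1 - ε / 4) * (P * y) ≤ TT A B y := by linarith
        _ ≤ _ := by linarith
    have b2 : (1 - ε) * (1 + ε / 4) ≤ 1 - ε / 4 := by nlinarith
    have b3 : (1 + ε / 4) * ((1 - ε) * (P * y)) ≤ (1 + ε / 4) * (PCs A B y * ℓ) := by
      refine le_trans ?_ b1
      calc (1 + ε / 4) * ((1 - ε) * (P * y)) = ((1 - ε) * (1 + ε / 4)) * (P * y) := by ring
        _ ≤ _ := mul_le_mul_of_nonneg_right b2 hPy
    have b4 := le_of_mul_le_mul_left b3 (by linarith)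
    linarith
  · have b1 : (1 - ε / 4) * (PCs A B y * ℓ) ≤ (1 + ε / 2) * (P * y) := by
      calc (1 - ε / 4) * (PCs A B y * ℓ) = (1 - ε / 4) * ℓ * PCs A B y := by ring
        _ ≤ TT A B y + (1 - ε / 4) * ℓ * ((X : ℝ) ^ 2 * y) := h8
        _ ≤ _ := by linarith
    have b2 : 1 + ε / 2 ≤ (1 - ε / 4) * (1 + ε) := by nlinarith
    have b3 : (1 - ε / 4) * (PCs A B y * ℓ) ≤ (1 - ε / 4) * ((1 + ε) * (P * y)) := by
      refine b1.trans ?_
      calc (1 + ε / 2) * (P * y) ≤ ((1 - ε / 4) * (1 + ε)) * (P * y) :=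
            mul_le_mul_of_nonneg_right b2 hPy
        _ = _ := by ring
    have b4 := le_of_mul_le_mul_left b3 (by linarith)
    linarith

end Pool.Agent.W301.SS
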