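import Mathlib
import Pool.Agent.H33.G.R_seed8.W301.SS.Trans
import Pool.Agent.H33.G.R_seed8.W301.SS.Sieve

/-! Many elements of a translate have primes to their right; the upper bound for the average. -/

set_option autoImplicit false

namespace Pool.Agent.W301.SS
open Finset Filter

/-- the elements `a` of `A` with at least `τ y / log N` primes in `(a + b, a + b + y]` -/
noncomputable def GG (A : Finset ℕ) (N b y : ℕ) (τ : ℝ) : Finset ℕ := by
  classical
  exact A.filter (fun a => τ * y ≤ (pn (a + b) y : ℝ) * Real.log N)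

lemma pn_le_VV {l : ℕ → ℝ} (hl1 : l 1 = 1) {D y n : ℕ} (hD : 1 ≤ D) (hy : 1 ≤ y) (hn : D ≤ n) :
    (pn n y : ℝ) / y ≤ VV l D y n := by
  unfold VV
  apply div_le_div_of_nonneg_right _ (Nat.cast_nonneg y)
  rw [pn_eq]
  apply sum_le_sum
  intro h hh
  rw [mem_Ioc] at hh
  split_ifs with hp
  · unfold nu
    have : ∑ d ∈ Icc 1 D, (if d ∣ n + h then l d else 0) = 1 := by
      rw [sum_eq_single 1]
      · simp [hl1]
      · intro d hd hd1
        rw [mem_Icc] at hd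
        rw [if_neg]
        intro hdvd
        rcases (Nat.dvd_prime hp).1 hdvd with h1 | h1
        · exact hd1 h1
        · omega
      · intro h1
        exact absurd (mem_Icc.2 ⟨le_rfl, hD⟩) h1
    rw [this]; norm_num
  · exact nu_nonneg _ _ _

/-- The key inequality. -/
lemma key_ineq {l : ℕ → ℝ} (hl1 : l 1 = 1) {D y N b : ℕ} (hD : 1 ≤ D) (hy : 1 ≤ y) (_hN : 1 ≤ N)
    (hm : 0 ≤ mv l D) (hb : b ∈ Icc 1 N) {A : Finset ℕ} (hA : ∀ a ∈ A, a ≤ N) (S : ℝ)
    (hS : ∑ n ∈ Ioc 0 (2 * N), (VV l D y n - mv l D) ^ 2 ≤ S) (G : Finset ℕ) (hG : G ⊆ A) :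
    (∑ a ∈ G, (pn (a + b) y : ℝ)) / y ≤ G.card * mv l D + √((A.card : ℝ) * S) + D := by
  classical
  have hy0 : (0 : ℝ) < y := by exact_mod_cast hy
  rw [mem_Icc] at hb
  rw [sum_div, ← sum_filter_add_sum_filter_not G (fun a => a + b < D)]
  have h1 : ∑ a ∈ G.filter (fun a => a + b < D), (pn (a + b) y : ℝ) / y ≤ D := by
    have h2 : ∀ a ∈ G.filter (fun a => a + b < D), (pn (a + b) y : ℝ) / y ≤ 1 := by
      intro a _
      rw [div_le_one hy0]
      exact_mod_cast pn_le _ _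
    refine (sum_le_sum h2).trans ?_
    rw [sum_const, nsmul_eq_mul, mul_one]
    have h3 : G.filter (fun a => a + b < D) ⊆ range D := by
      intro a ha
      rw [mem_filter] at ha
      rw [mem_range]; omega
    have h4 := card_le_card h3
    rw [card_range] at h4
    exact_mod_cast h4
  have h2 : ∑ a ∈ G.filter (fun a => ¬ (a + b < D)), (pn (a + b) y : ℝ) / y ≤
      ∑ a ∈ G.filter (fun a => ¬ (a + b < D)), (mv l D + |VV l D y (a + b) - mv l D|) := by
    apply sum_le_sum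
    intro a ha
    rw [mem_filter, not_lt] at ha
    have h3 := pn_le_VV hl1 hD hy ha.2
    have h4 := le_abs_self (VV l D y (a + b) - mv l D)
    linarith
  have h3 : ∑ a ∈ G.filter (fun a => ¬ (a + b < D)), (mv l D + |VV l D y (a + b) - mv l D|) ≤
      G.card * mv l D + ∑ a ∈ A, |VV l D y (a + b) - mv l D| := by
    rw [sum_add_distrib, sum_const, nsmul_eq_mul]
    apply add_le_add
    · apply mul_le_mul_of_nonneg_right _ hm
      exact_mod_cast card_filter_le _ _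
    · apply sum_le_sum_of_subset_of_nonneg ((filter_subset _ _).trans hG)
      intro _ _ _; exact abs_nonneg _
  have h4 : ∑ a ∈ A, |VV l D y (a + b) - mv l D| ≤ √((A.card : ℝ) * S) := by
    have h5 := Real.sum_mul_le_sqrt_mul_sqrt A (fun _ => (1 : ℝ)) (fun a => |VV l D y (a + b) - mv l D|)
    simp only [one_mul, one_pow, sum_const, nsmul_eq_mul, mul_one, sq_abs] at h5
    refine h5.trans ?_
    rw [← Real.sqrt_mul (Nat.cast_nonneg _)]
    apply Real.sqrt_le_sqrt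
    apply mul_le_mul_of_nonneg_left _ (Nat.cast_nonneg _)
    refine le_trans ?_ hS
    have h6 : ∑ a ∈ A, (VV l D y (a + b) - mv l D) ^ 2 =
        ∑ n ∈ A.map (addRightEmbedding b), (VV l D y n - mv l D) ^ 2 := by
      rw [sum_map]; rfl
    rw [h6]
    apply sum_le_sum_of_subset_of_nonneg
    · intro n hn
      rw [Finset.mem_map] at hn
      obtain ⟨a, ha, rfl⟩ := hn
      have := hA a ha
      rw [mem_Ioc]
      simp only [addRightEmbedding_apply]
      omega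
    · intro _ _ _; exact sq_nonneg _
  linarith

lemma sel (D : ℕ) (hD : 3 ≤ D) : ∃ l : ℕ → ℝ, l 1 = 1 ∧ (∀ d, |l d| ≤ 1) ∧ 0 ≤ mv l D ∧
    mv l D ≤ 1 / Real.log D ∧ mv l D ≤ 1 := by
  obtain ⟨l, h1, h2, _, _, h5, h6⟩ := Pool.Agent.H376R2.MR.sel_weights D (by omega)
  have e : mv l D = ∑ d ∈ Icc 1 D, ∑ e ∈ Icc 1 D, l d * l e / (Nat.lcm d e : ℝ) := by
    unfold mv DD
    rw [sum_product]
  refine ⟨l, h1, h2, by rw [e]; exact h5, by rw [e]; exact h6, ?_⟩
  rw [e]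
  refine h6.trans ?_
  have h3 : (1 : ℝ) ≤ Real.log D := by
    have : Real.exp 1 ≤ D := by
      have h7 := Real.exp_one_lt_d9
      have : (3 : ℝ) ≤ D := by exact_mod_cast hD
      linarith
    rw [Real.le_log_iff_exp_le (by linarith [Real.exp_pos 1])]
    exact this
  rw [div_le_one (by linarith)]
  exact h3

/-- **Uniform upper bound for subsets of translates.** -/
theorem subsets (δ : ℝ) (hδ : 0 < δ) (hδ1 : δ ≤ 1 / 4) : ∀ᶠ N : ℕ in atTop,
    ∀ A : Finset ℕ, (∀ a ∈ A, a ≤ N) → ∀ b ∈ Icc 1 N, ∀ y : ℕ, 1 ≤ y →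
    (3 * (N : ℝ) ^ (1 - δ) + (2 * N / y) * (2 * Real.log N) ^ 16) * (4 * Real.log N ^ 2 / δ ^ 2) ≤
      A.card →
    (N : ℝ) ^ (1 / 4 : ℝ) * (2 * Real.log N / δ) ≤ A.card →
    ∀ G : Finset ℕ, G ⊆ A → (∑ a ∈ G, (pn (a + b) y : ℝ)) * Real.log N ≤
      (4 / (1 - 2 * δ) * G.card + δ * A.card) * y := by
  have hδ4 : 0 < (1 - δ) / 4 := by linarith
  filter_upwards [ev_L (4 / δ + 4), ev_log 0 3 ((1 - δ) / 4) hδ4, eventually_ge_atTop 16] with
    N h1 h2 hN16 A hA b hb y hy hc1 hc2 G hG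
  have hNr : (16 : ℝ) ≤ N := by exact_mod_cast hN16
  have hN0 : (0 : ℝ) < N := by linarith
  have hN1 : (1 : ℝ) ≤ N := by linarith
  have hy0 : (0 : ℝ) < y := by exact_mod_cast hy
  set ℓ := Real.log N with hℓ
  have hd1 : 0 < 4 / δ := by positivity
  have hℓ4 : 4 ≤ ℓ := by linarith
  have hℓ0 : 0 < ℓ := by linarith
  rw [pow_zero, mul_one] at h2
  set D : ℕ := ⌊(N : ℝ) ^ ((1 - δ) / 4)⌋₊ with hD
  have hDle : (D : ℝ) ≤ (N : ℝ) ^ ((1 - δ) / 4) := Nat.floor_le (by positivity)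
  have hD3 : 3 ≤ D := Nat.le_floor (by exact_mod_cast h2)
  have hDr : (3 : ℝ) ≤ D := by exact_mod_cast hD3
  have hDge : (N : ℝ) ^ ((1 - δ) / 4) ≤ 2 * D := by
    have := Nat.lt_floor_add_one ((N : ℝ) ^ ((1 - δ) / 4))
    rw [← hD] at this
    linarith
  have hlogD : (1 - 2 * δ) / 4 * ℓ ≤ Real.log D := by
    have a1 := Real.log_le_log (by positivity) hDge
    rw [Real.log_rpow hN0, Real.log_mul (by norm_num) (by linarith)] at a1
    have a2 := Real.log_two_lt_d9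
    have a3 : 1 ≤ δ * ℓ / 4 := by
      have : 4 / δ ≤ ℓ := by linarith
      rw [div_le_iff₀ hδ] at this
      linarith
    nlinarith
  have hlogD2 : 1 + 4 * Real.log D ≤ 2 * ℓ := by
    have a1 := Real.log_le_log (by linarith) hDle
    rw [Real.log_rpow hN0] at a1
    nlinarith
  have hlogD0 : 0 ≤ 1 + 4 * Real.log D := by
    have := Real.log_nonneg (show (1 : ℝ) ≤ D by linarith)
    linarith
  have hD4 : (D : ℝ) ^ 4 ≤ (N : ℝ) ^ (1 - δ) := by
    calc (D : ℝ) ^ 4 ≤ ((N : ℝ) ^ ((1 - δ) / 4)) ^ 4 := pow_le_pow_left₀ (by positivity) hDle 4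
      _ = _ := by
        rw [← Real.rpow_natCast, ← Real.rpow_mul hN0.le]
        congr 1; push_cast; ring
  have hDN : (D : ℝ) ≤ (N : ℝ) ^ (1 / 4 : ℝ) :=
    hDle.trans (Real.rpow_le_rpow_of_exponent_le hN1 (by linarith))
  obtain ⟨l, l1, l2, l3, l4, l5⟩ := sel D hD3
  have hvar := variance l l2 D (by omega) l3 l5 (2 * N) y hy
  set S : ℝ := 3 * (N : ℝ) ^ (1 - δ) + (2 * N / y) * (2 * ℓ) ^ 16 with hS
  have hSle : ∑ n ∈ Ioc 0 (2 * N), (VV l D y n - mv l D) ^ 2 ≤ S := by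
    refine hvar.trans ?_
    rw [hS]
    push_cast
    have : (1 + 4 * Real.log D) ^ 16 ≤ (2 * ℓ) ^ 16 := pow_le_pow_left₀ hlogD0 hlogD2 16
    gcongr
  have hkey := key_ineq l1 (D := D) (by omega) hy (by omega) l3 hb hA S hSle G hG
  have hS0 : 0 ≤ S := by rw [hS]; positivity
  -- the two error terms
  have hAc : (0 : ℝ) ≤ A.card := Nat.cast_nonneg _
  have e1 : √((A.card : ℝ) * S) * ℓ ≤ δ / 2 * A.card := by
    have hpos : 0 < 4 * ℓ ^ 2 / δ ^ 2 := by positivity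
    have a1 : S ≤ A.card / (4 * ℓ ^ 2 / δ ^ 2) := by
      rw [le_div_iff₀ hpos]; exact hc1
    have a2 : (A.card : ℝ) * S ≤ (δ / (2 * ℓ) * A.card) ^ 2 := by
      calc (A.card : ℝ) * S ≤ A.card * (A.card / (4 * ℓ ^ 2 / δ ^ 2)) := by gcongr
        _ = _ := by field_simp; ring
    have a3 : √((A.card : ℝ) * S) ≤ δ / (2 * ℓ) * A.card :=
      Real.sqrt_le_iff.2 ⟨by positivity, a2⟩
    calc √((A.card : ℝ) * S) * ℓ ≤ (δ / (2 * ℓ) * A.card) * ℓ := by gcongr
      _ = _ := by field_simp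
  have e2 : (D : ℝ) * ℓ ≤ δ / 2 * A.card := by
    have a1 : (D : ℝ) * (2 * ℓ / δ) ≤ A.card := by
      refine le_trans ?_ hc2
      gcongr
    calc (D : ℝ) * ℓ = (δ / 2) * (D * (2 * ℓ / δ)) := by field_simp
      _ ≤ _ := by gcongr
  have e3 : mv l D * ℓ ≤ 4 / (1 - 2 * δ) := by
    have hpos : 0 < (1 - 2 * δ) / 4 * ℓ := by
      have : 0 < 1 - 2 * δ := by linarith
      positivity
    calc mv l D * ℓ ≤ (1 / Real.log D) * ℓ := by gcongr
      _ ≤ (1 / ((1 - 2 * δ) / 4 * ℓ)) * ℓ := by gcongr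
      _ = _ := by
        have : 1 - 2 * δ ≠ 0 := by linarith
        field_simp
  rw [div_le_iff₀ hy0] at hkey
  calc (∑ a ∈ G, (pn (a + b) y : ℝ)) * ℓ ≤
        ((G.card * mv l D + √((A.card : ℝ) * S) + D) * y) * ℓ := by gcongr
    _ = (G.card * (mv l D * ℓ) + √((A.card : ℝ) * S) * ℓ + D * ℓ) * y := by ring
    _ ≤ (G.card * (4 / (1 - 2 * δ)) + δ / 2 * A.card + δ / 2 * A.card) * y := by gcongr
    _ = _ := by ring

/-- Many elements of the translate are followed by many primes. -/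
lemma many (δ : ℝ) (hδ : 0 < δ) (hδ1 : δ ≤ 1 / 4) {N y b : ℕ} {A : Finset ℕ} (τ lam : ℝ)
    (hτ : 0 ≤ τ) (hy : 1 ≤ y)
    (hsub : ∀ G : Finset ℕ, G ⊆ A → (∑ a ∈ G, (pn (a + b) y : ℝ)) * Real.log N ≤
      (4 / (1 - 2 * δ) * G.card + δ * A.card) * y)
    (hlow : lam * ((A.card : ℝ) * y) ≤ cs A b y * Real.log N) :
    (1 - 2 * δ) / 4 * (lam - τ - δ) * A.card ≤ (GG A N b y τ).card := by
  classical
  have hy0 : (0 : ℝ) < y := by exact_mod_cast hy
  set G := GG A N b y τ with hG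
  have hGA : G ⊆ A := by rw [hG]; unfold GG; exact filter_subset _ _
  have h1 := hsub G hGA
  have h2 : cs A b y = ∑ a ∈ G, (pn (a + b) y : ℝ) +
      ∑ a ∈ A.filter (fun a => ¬ (τ * y ≤ (pn (a + b) y : ℝ) * Real.log N)), (pn (a + b) y : ℝ) := by
    unfold cs
    rw [hG]
    unfold GG
    rw [sum_filter_add_sum_filter_not]
  have h3 : (∑ a ∈ A.filter (fun a => ¬ (τ * y ≤ (pn (a + b) y : ℝ) * Real.log N)),
      (pn (a + b) y : ℝ)) * Real.log N ≤ τ * y * A.card := by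
    rw [sum_mul]
    have h4 : ∀ a ∈ A.filter (fun a => ¬ (τ * y ≤ (pn (a + b) y : ℝ) * Real.log N)),
        (pn (a + b) y : ℝ) * Real.log N ≤ τ * y := by
      intro a ha
      rw [mem_filter, not_le] at ha
      exact ha.2.le
    refine (sum_le_sum h4).trans ?_
    rw [sum_const, nsmul_eq_mul]
    have h5 : (((A.filter (fun a => ¬ (τ * y ≤ (pn (a + b) y : ℝ) * Real.log N))).card : ℕ) : ℝ) ≤
        A.card := by exact_mod_cast card_filter_le _ _
    calc _ ≤ (A.card : ℝ) * (τ * y) := by gcongr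
      _ = _ := by ring
  have hd : 0 < 1 - 2 * δ := by linarith
  have h4 : lam * ((A.card : ℝ) * y) ≤ (4 / (1 - 2 * δ) * G.card + δ * A.card) * y + τ * y * A.card := by
    refine hlow.trans ?_
    rw [h2, add_mul]
    linarith
  have h5 : (lam - τ - δ) * A.card ≤ 4 / (1 - 2 * δ) * G.card := by
    have : (lam - τ - δ) * A.card * y ≤ 4 / (1 - 2 * δ) * G.card * y := by linarith
    exact le_of_mul_le_mul_right this hy0
  calc (1 - 2 * δ) / 4 * (lam - τ - δ) * A.card = (1 - 2 * δ) / 4 * ((lam - τ - δ) * A.card) := by ring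
    _ ≤ (1 - 2 * δ) / 4 * (4 / (1 - 2 * δ) * G.card) := by gcongr
    _ = _ := by field_simp

end Pool.Agent.W301.SS
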